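import Pool.Agent.GBB.Defs2

/-!
# Morphisms respect `X ^ m` and rational equivalence
-/

set_option autoImplicit false

noncomputable section

namespace Pool.Agent.GBB

open Pool.Agent.ZCyc Pool.Agent.DCI57
open scoped LinearAlgebra.Projectivization

variable {d m m' N : ℕ} {X : Set (ℙ ℂ (Fin N → ℂ))}

theorem onX_app (hX : Stab d X) (f : Mor d m m' X) (x : Pts m N) (hx : OnX X x) :
    OnX X (f.app x) := by
  intro j
  unfold Mor.app
  cases hf : f j with
  | const p hp => exact hp
  | fac i ζ => exact hX ζ (x i) (hx i)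

/-- the composition of a morphism from a curve with a component -/
private def compP {F : Type} [Field F] [Algebra ℂ F] (P : Fin m → Fin N → F) (c : Comp d m X) :
    Fin N → F :=
  match c with
  | .const p _ => fun l => algebraMap ℂ F (p.rep l)
  | .fac i ζ => fun l => algebraMap ℂ F ((ζ l : ℂˣ) : ℂ) * P i l

private theorem compP_value {F : Type} [Field F] [Algebra ℂ F] (v : Place ℂ F)
    (P : Fin m → Fin N → F) (p : Pts m N) (h : ∀ i, IsValue v (P i) (p i)) (c : Comp d m X) :
    IsValue v (compP P c) (c.app p) := by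
  cases c with
  | const q hq =>
    refine ⟨1, fun j => ?_⟩
    change 1 * algebraMap ℂ F (q.rep j) - algebraMap ℂ F (q.rep j) ∈ v.ring.nonunits
    rw [one_mul, sub_self, ValuationSubring.mem_nonunits_iff, map_zero]
    exact zero_lt_one
  | fac i ζ =>
    obtain ⟨s, hs⟩ := h i
    obtain ⟨a, ha⟩ := Projectivization.exists_smul_eq_mk_rep ℂ
      (fun l => ((ζ l : ℂˣ) : ℂ) * (p i).rep l) (fac_ne ζ (p i))
    refine ⟨algebraMap ℂ F a * s, fun j => ?_⟩
    change algebraMap ℂ F a * s * (algebraMap ℂ F ((ζ j : ℂˣ) : ℂ) * P i j) -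
      algebraMap ℂ F ((Projectivization.mk ℂ
        (fun l => ((ζ l : ℂˣ) : ℂ) * (p i).rep l) (fac_ne ζ (p i))).rep j) ∈ v.ring.nonunits
    rw [← ha]
    have h2 : (a • fun l => ((ζ l : ℂˣ) : ℂ) * (p i).rep l) j =
        (a : ℂ) * (((ζ j : ℂˣ) : ℂ) * (p i).rep j) := rfl
    have h3 : algebraMap ℂ F a * s * (algebraMap ℂ F ((ζ j : ℂˣ) : ℂ) * P i j) -
        algebraMap ℂ F ((a : ℂ) * (((ζ j : ℂˣ) : ℂ) * (p i).rep j)) =
        algebraMap ℂ F (a * ((ζ j : ℂˣ) : ℂ)) *
          (s * P i j - algebraMap ℂ F ((p i).rep j)) := by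
      simp only [map_mul]
      ring
    rw [h2, h3, mul_comm, ValuationSubring.mem_nonunits_iff, map_mul]
    have h4 := hs j
    unfold Place.Vanishes at h4
    rw [ValuationSubring.mem_nonunits_iff] at h4
    exact mul_lt_one_of_lt_of_le h4 ((v.ring.valuation_le_one_iff _).2 (v.const_mem _))

theorem ratEq_map (hX : Stab d X) (f : Mor d m m' X) :
    (ratEq ℚ X m).map (Finsupp.lmapDomain ℚ ℚ f.app) ≤ ratEq ℚ X m' := by
  unfold ratEq
  rw [Submodule.map_span_le]
  rintro z ⟨F, _, _, _, _, _, _, x, φ, h1, h2, a, b, v, w, hv, hw, rfl⟩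
  apply Submodule.subset_span
  refine ⟨F, inferInstance, inferInstance, inferInstance, inferInstance, inferInstance,
    inferInstance, fun j => compP x (f j), fun v => f.app (φ v),
    fun v j => compP_value v x (φ v) (h1 v) (f j), fun v j => onX_app hX f (φ v) (h2 v) j,
    a, b, v, w, hv, hw, ?_⟩
  rw [map_sum]
  refine Finset.sum_congr rfl fun τ _ => ?_
  rw [map_sub, Finsupp.lmapDomain_apply, Finsupp.lmapDomain_apply, Finsupp.mapDomain_single,
    Finsupp.mapDomain_single]

end Pool.Agent.GBB
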