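import Pool.Agent.GBB.Defs2

/-!
# Morphisms which induce an automorphism on a group of factors
-/

set_option autoImplicit false

noncomputable section

namespace Pool.Agent.GBB

open scoped LinearAlgebra.Projectivization

variable {d m m' N : ℕ} {X : Set (ℙ ℂ (Fin N → ℂ))}

theorem Induces.unique {f : Mor d m m' X} {k : ℕ} {I : Fin k ↪o Fin m} {J : Fin k ↪o Fin m'}
    {g g' : Sym d k N} (h : Induces f I J g) (h' : Induces f I J g') : g = g' := by
  have h1 : ∀ b, g.1 b = g'.1 b ∧ g.2 b = g'.2 b := by
    intro b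
    have h2 := h b
    rw [h' b] at h2
    injection h2 with h4 h5
    exact ⟨(I.injective h4).symm, h5.symm⟩
  exact Prod.ext (Equiv.ext fun b => (h1 b).1) (funext fun b => (h1 b).2)

/-- a morphism which maps `J` onto `I` induces an automorphism of `X ^ k` -/
theorem exists_induces (f : Mor d m m' X) {k : ℕ} (I : Fin k ↪o Fin m) (J : Fin k ↪o Fin m')
    (h : Onto f (Finset.univ.map J.toEmbedding) (Finset.univ.map I.toEmbedding)) :
    ∃ g, Induces f I J g := by
  have h1 : ∀ b : Fin k, ∃ (i : Fin k) (ζ : Fin N → rootsOfUnity d ℂ),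
      f (J b) = Comp.fac (I i) ζ := by
    intro b
    obtain ⟨i, hi, h2⟩ := h.1 (J b) (by simp)
    rw [Finset.mem_map] at hi
    obtain ⟨a, -, rfl⟩ := hi
    rcases hf : f (J b) with _ | ⟨i', ζ⟩
    · rw [hf] at h2
      simp [Comp.src] at h2
    · rw [hf] at h2
      simp only [Comp.src, Option.some.injEq] at h2
      subst h2
      exact ⟨a, ζ, rfl⟩
  choose s ζ hs using h1
  have hsurj : Function.Surjective s := by
    intro a
    obtain ⟨j, hj, h2⟩ := h.2 (I a) (by simp)
    rw [Finset.mem_map] at hj
    obtain ⟨b, -, rfl⟩ := hj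
    refine ⟨b, ?_⟩
    have h3 : (f (J b)).src = some (I a) := h2
    rw [hs b] at h3
    simp only [Comp.src, Option.some.injEq] at h3
    exact I.injective h3
  exact ⟨(Equiv.ofBijective s ⟨Finite.injective_iff_surjective.mpr hsurj, hsurj⟩, ζ), hs⟩

theorem onto_of_induces (f : Mor d m m' X) {k : ℕ} (I : Fin k ↪o Fin m) (J : Fin k ↪o Fin m')
    (g : Sym d k N) (h : Induces f I J g) :
    Onto f (Finset.univ.map J.toEmbedding) (Finset.univ.map I.toEmbedding) := by
  constructor
  · intro j hj
    rw [Finset.mem_map] at hj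
    obtain ⟨b, -, rfl⟩ := hj
    refine ⟨I (g.1 b), by simp, ?_⟩
    simp only [RelEmbedding.coe_toEmbedding, h b, Comp.src]
  · intro i hi
    rw [Finset.mem_map] at hi
    obtain ⟨a, -, rfl⟩ := hi
    refine ⟨J (g.1.symm a), by simp, ?_⟩
    simp only [RelEmbedding.coe_toEmbedding, h (g.1.symm a), Comp.src, Equiv.apply_symm_apply]

private theorem mk_rep_one (p : ℙ ℂ (Fin N → ℂ)) (v : Fin N → ℂ) (hv : v ≠ 0)
    (h : v = p.rep) : Projectivization.mk ℂ v hv = p := by
  subst h
  exact Projectivization.mk_rep p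

private theorem emb_app_mem (o : ℙ ℂ (Fin N → ℂ)) (ho : o ∈ X) {k : ℕ}
    (J : Fin k ↪o Fin m') (z : Pts k N) (b : Fin k) : (emb (d := d) o ho J).app z (J b) = z b := by
  unfold Mor.app emb
  have h : ∃ b', J b' = J b := ⟨b, rfl⟩
  rw [dif_pos h]
  have hb : h.choose = b := J.injective h.choose_spec
  rw [hb]
  refine mk_rep_one _ _ _ ?_
  funext l
  simp only [Pi.one_apply, Units.val_one, OneMemClass.coe_one, one_mul]

private theorem emb_app_notMem (o : ℙ ℂ (Fin N → ℂ)) (ho : o ∈ X) {k : ℕ}
    (J : Fin k ↪o Fin m') (z : Pts k N) (j : Fin m') (hj : ¬ ∃ b, J b = j) :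
    (emb (d := d) o ho J).app z j = o := by
  unfold Mor.app emb
  rw [dif_neg hj]
  rfl

/-- the product of differences on the factors `J`, with the constant `o` elsewhere -/
theorem cyc_induces (f : Mor d m m' X) {k : ℕ} (I : Fin k ↪o Fin m) (J : Fin k ↪o Fin m')
    (g : Sym d k N) (h : Induces f I J g) (o : ℙ ℂ (Fin N → ℂ)) (ho : o ∈ X)
    (x y : Pts m N) :
    ((cyc Finset.univ (fun b => x (I b)) (fun b => y (I b))).mapDomain g.act).mapDomain
        (emb (d := d) o ho J).app =
      cyc (Finset.univ.map J.toEmbedding)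
        (fun j => if j ∈ Finset.univ.map J.toEmbedding then f.app x j else o)
        (fun j => if j ∈ Finset.univ.map J.toEmbedding then f.app y j else o) := by
  classical
  unfold cyc
  rw [Finsupp.mapDomain_finsetSum, Finsupp.mapDomain_finsetSum]
  simp only [Finsupp.mapDomain_single]
  refine Finset.sum_bij (fun S _ => (S.map g.1.symm.toEmbedding).map J.toEmbedding) ?_ ?_ ?_ ?_
  · intro S _
    rw [Finset.mem_powerset]
    exact Finset.map_subset_map.mpr (Finset.subset_univ _)
  · intro S _ S' _ hSS
    exact Finset.map_injective _ (Finset.map_injective _ hSS)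
  · intro T hT
    rw [Finset.mem_powerset, Finset.subset_map_iff] at hT
    obtain ⟨U, -, rfl⟩ := hT
    refine ⟨U.map g.1.toEmbedding, Finset.mem_powerset.2 (Finset.subset_univ _), ?_⟩
    congr 1
    rw [Finset.map_map]
    convert Finset.map_refl
    ext b
    simp
  · intro S _
    rw [Finset.card_map, Finset.card_map]
    congr 1
    funext j
    by_cases hj : ∃ b, J b = j
    · obtain ⟨b, rfl⟩ := hj
      rw [emb_app_mem]
      have h1 : (J b ∈ (S.map g.1.symm.toEmbedding).map J.toEmbedding) ↔ g.1 b ∈ S := by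
        simp [Finset.mem_map]
      have h2 : J b ∈ Finset.univ.map J.toEmbedding := by simp
      rw [if_pos h2, if_pos h2]
      unfold Sym.act Mor.app
      rw [h b]
      by_cases hb : g.1 b ∈ S
      · rw [if_pos (h1.mpr hb)]
        unfold Comp.app
        congr 1
        funext l
        simp only [if_pos hb]
      · rw [if_neg (fun h3 => hb (h1.mp h3))]
        unfold Comp.app
        congr 1
        funext l
        simp only [if_neg hb]
    · rw [emb_app_notMem _ _ _ _ _ hj]
      have h2 : j ∉ Finset.univ.map J.toEmbedding := by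
        intro h3
        rw [Finset.mem_map] at h3
        obtain ⟨b, -, hb⟩ := h3
        exact hj ⟨b, hb⟩
      rw [if_neg h2, if_neg h2, ite_self]

end Pool.Agent.GBB
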