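import Pool.Agent.GBB.Final
import Pool.Agent.GBB.Filt
import Pool.Agent.GBB.MapCyc
import Pool.Agent.GBB.Grad
import Pool.Agent.DCI57.Relation

/-!
# GBB: conditions 1-4 for all powers of a diagonal complete intersection with the exchange property
-/

set_option autoImplicit false

noncomputable section

namespace Pool.Agent.GBB

open Pool.Agent.ZCyc Pool.Agent.DCI57
open scoped LinearAlgebra.Projectivization

variable {d m m' N : ℕ}

theorem diag_nonempty [NeZero d] {r : ℕ} (hr : r < N) (c : Fin r → Fin N → ℂ) :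
    (Diag d c).Nonempty := by
  have h1 : LinearMap.ker (Matrix.mulVecLin (Matrix.of c)) ≠ ⊥ := by
    apply LinearMap.ker_ne_bot_of_finrank_lt
    simpa using hr
  obtain ⟨v, hv, hv0⟩ := (Submodule.ne_bot_iff _).1 h1
  obtain ⟨q, hq, -⟩ := exists_point (m := d) hv0 (c := c) (fun i => by
    have h2 := congrFun (LinearMap.mem_ker.1 hv) i
    simpa [Matrix.mulVec, dotProduct] using h2)
  exact ⟨q, hq⟩

theorem conditions [NeZero d] {n r : ℕ} (hd : 1 < d) (hn : 2 ≤ n) (hr : 1 ≤ r)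
    (hN : N = n + r + 1) (hN' : (r - 1) * d + d / 2 + 2 ≤ N ∨ N = r * d)
    {c : Fin r → Fin N → ℂ} (hsw : HasSwap (d := d) n r c) :
    (∀ m ν, ratEq ℚ (Diag d c) m ≤ Fil n (Diag d c) m ν ∧
      Fil n (Diag d c) m (ν + 1) ≤ Fil n (Diag d c) m ν) ∧
    (∀ m z, z ∈ Fil n (Diag d c) m 0 ↔ ∀ p ∈ z.support, OnX (Diag d c) p) ∧
    (∀ m z, z ∈ Fil n (Diag d c) m 1 ↔
      (∀ p ∈ z.support, OnX (Diag d c) p) ∧ (z.sum fun _ c => c) = 0) ∧
    (∀ m, Fil n (Diag d c) m 2 = Fil n (Diag d c) m 1) ∧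
    (∀ m, Fil n (Diag d c) m (n * m + 1) = ratEq ℚ (Diag d c) m) ∧
    (∀ m m' ν (γ : Mor d m m' (Diag d c) →₀ ℚ),
      (Fil n (Diag d c) m ν).map (pushM γ) ≤ Fil n (Diag d c) m' ν) ∧
    (∀ m m' ν (γ : Mor d m m' (Diag d c) →₀ ℚ), KillsNuForms n r γ ν →
      (Fil n (Diag d c) m ν).map (pushM γ) ≤ Fil n (Diag d c) m' (ν + 1)) := by
  refine ⟨fun m ν => ⟨ratEq_le_Fil n ν, Fil_anti n ν⟩, fun m z => Fil_zero n z,
    fun m z => Fil_one n (by omega) z, fun m => Fil_two n hn, fun m => Fil_top n (by omega),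
    fun m m' ν γ => ?_, fun m m' ν γ hγ => ?_⟩
  · rw [Submodule.map_le_iff_le_comap]
    intro z hz
    rw [Submodule.mem_comap]
    have h1 : pushM γ z = ∑ f ∈ γ.support, γ f • z.mapDomain f.app := by
      unfold pushM
      rw [Finsupp.sum, LinearMap.sum_apply]
      rfl
    rw [h1]
    refine Submodule.sum_mem _ fun f _ => Submodule.smul_mem _ _ ?_
    exact Fil_map (stab_diag c) n ν f (Submodule.mem_map_of_mem hz)
  · exact Fil_grad n r (by omega) (stab_diag c) (diag_nonempty (by omega) c)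
      (fun k γ hk hγ x y hx hy => main hd hr hN' hsw hk γ hγ x y hx hy) γ ν hγ

end Pool.Agent.GBB
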