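import Pool.Agent.GBB.Defs2
import Pool.Agent.DCI57.Op

/-!
# The exchange of two factors
-/

set_option autoImplicit false

noncomputable section

namespace Pool.Agent.GBB

open Pool.Agent.ZCyc Pool.Agent.DCI57
open Pool.Agent.VCI (op2 ratEquiv2)
open scoped LinearAlgebra.Projectivization

/-- two factors with the same character may be exchanged -/
def HasSwap {d N : ℕ} [NeZero d] (n r : ℕ) (c : Fin r → Fin N → ℂ) : Prop :=
  ∀ (a : Fin N → ZMod d) (t : (ZMod d)ˣ) (b : Fin N → ℕ), Typ r a t b →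
    ∀ p q : ℙ ℂ (Fin N → ℂ), p ∈ Diag d c → q ∈ Diag d c →
      op2 (zeta d) (chi a) (chi a) (Finsupp.single (p, q) 1) -
        (-1 : ℂ) ^ n • op2 (zeta d) (chi a) (chi a) (Finsupp.single (q, p) 1) ∈
      ratEquiv2 ℂ (Diag d c)

end Pool.Agent.GBB
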