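import Pool.Agent.GBB.Defs
import Pool.Agent.VCI.Defs

/-!
# Auxiliary definitions
-/

set_option autoImplicit false

noncomputable section

namespace Pool.Agent.GBB

open Pool.Agent.ZCyc Pool.Agent.DCI57
open scoped LinearAlgebra.Projectivization

/-- the root of unity `exp (2 π i / d)` -/
def zeta (d : ℕ) : ℂˣ :=
  Units.mk0 (Complex.exp (2 * Real.pi * Complex.I / d)) (Complex.exp_ne_zero _)

/-- its powers -/
def psi {d : ℕ} (k : ZMod d) : ℂ := ((zeta d : ℂˣ) : ℂ) ^ k.val

theorem zeta_prim (d : ℕ) [NeZero d] : IsPrimitiveRoot ((zeta d : ℂˣ) : ℂ) d :=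
  Complex.isPrimitiveRoot_exp d (NeZero.ne d)

theorem zeta_pow (d : ℕ) [NeZero d] : zeta d ^ d = 1 := by
  apply Units.ext
  push_cast
  exact (zeta_prim d).pow_eq_one

theorem psi_zero {d : ℕ} [NeZero d] : psi (0 : ZMod d) = 1 := by simp [psi]

theorem psi_add {d : ℕ} [NeZero d] (k l : ZMod d) : psi (k + l) = psi k * psi l := by
  unfold psi
  rw [← pow_add, ZMod.val_add]
  exact (pow_eq_pow_mod _ (zeta_prim d).pow_eq_one).symm

variable {d m m' N : ℕ}

/-- the character with the exponents `a` -/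
def chi [NeZero d] (a : Fin N → ZMod d) : AddChar (Fin N → ZMod d) ℂ where
  toFun t := psi (∑ j, a j * t j)
  map_zero_eq_one' := by simp [psi_zero]
  map_add_eq_mul' x y := by
    rw [← psi_add, ← Finset.sum_add_distrib]
    simp only [Pi.add_apply, mul_add]

theorem chi_apply [NeZero d] (a t : Fin N → ZMod d) :
    chi a t = ((zeta d : ℂˣ) : ℂ) ^ (∑ j, a j * t j).val := rfl

/-- `X` is stable under the diagonal automorphisms -/
def Stab (d : ℕ) {N : ℕ} (X : Set (ℙ ℂ (Fin N → ℂ))) : Prop :=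
  ∀ ζ : Fin N → rootsOfUnity d ℂ, ∀ p ∈ X,
    Projectivization.mk ℂ (fun j => ((ζ j : ℂˣ) : ℂ) * p.rep j) (fac_ne ζ p) ∈ X

/-! ### Classes -/

/-- zero-cycles modulo rational equivalence (with complex coefficients) -/
abbrev V {N : ℕ} (X : Set (ℙ ℂ (Fin N → ℂ))) (m : ℕ) : Type := (Pts m N →₀ ℂ) ⧸ ratEq ℂ X m

/-- the class of a point -/
def cl (X : Set (ℙ ℂ (Fin N → ℂ))) (p : Pts m N) : V X m :=
  Submodule.Quotient.mk (Finsupp.single p 1)

/-- multiply the coordinates `(i, j)` by the roots of unity `zeta d ^ g i j` -/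
def actM (g : Fin m → Fin N → ZMod d) (p : Pts m N) : Pts m N := fun i => act (zeta d) (g i) (p i)

/-- the part of the class of `p` on which the roots of unity act by a character -/
def E [NeZero d] (X : Set (ℙ ℂ (Fin N → ℂ))) (a : Fin m → Fin N → ZMod d) (p : Pts m N) :
    V X m :=
  ∑ g : Fin m → Fin N → ZMod d, psi (∑ i, ∑ j, a i j * g i j) • cl X (actM g p)

/-- the exponents `a` are multiples of positive integers with sum `r d`, and can be divided into
`r` zero-sum blocks -/
def Typ (r : ℕ) [NeZero d] (a : Fin N → ZMod d) (t : (ZMod d)ˣ) (b : Fin N → ℕ) : Prop :=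
  (∀ j, 0 < b j) ∧ ∑ j, b j = r * d ∧ (∀ j, a j = (t : ZMod d) * (b j : ZMod d)) ∧
    (∀ j, a j ≠ 0) ∧ ∃ B : Fin N → Fin r, Function.Surjective B ∧
      ∀ s, ∑ j with B j = s, a j = 0

/-! ### Automorphisms of the powers -/

/-- the action of the automorphism on points -/
def Sym.act {k : ℕ} (g : Sym d k N) (p : Pts k N) : Pts k N := fun b =>
  Projectivization.mk ℂ (fun j => ((g.2 b j : ℂˣ) : ℂ) * (p (g.1 b)).rep j)
    (fac_ne (g.2 b) (p (g.1 b)))

/-- the image of a zero-cycle under a combination of automorphisms -/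
def push {k : ℕ} (γ : Sym d k N →₀ ℚ) (z : Pts k N →₀ ℚ) : Pts k N →₀ ℚ :=
  γ.sum fun g c => c • z.mapDomain g.act

/-- the combination of automorphisms acts as zero on the holomorphic forms of top degree -/
def KillsForms {k : ℕ} (n r : ℕ) (γ : Sym d k N →₀ ℚ) : Prop :=
  ∀ e : ℕ, e + N = r * d → ∀ P : MvPolynomial (Fin k × Fin N) ℂ, MultiHom e P →
    (γ.sum fun g c => (c : ℂ) • g.pull n P) = 0

/-! ### Morphisms -/

variable {X : Set (ℙ ℂ (Fin N → ℂ))}

/-- the number of the factor of a non-constant component -/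
def Comp.src : Comp d m X → Option (Fin m)
  | .const _ _ => none
  | .fac i _ => some i

/-- `f` maps `K` onto `I` -/
def Onto (f : Mor d m m' X) (K : Finset (Fin m')) (I : Finset (Fin m)) : Prop :=
  (∀ j ∈ K, ∃ i ∈ I, (f j).src = some i) ∧ ∀ i ∈ I, ∃ j ∈ K, (f j).src = some i

/-- the morphism `X ^ k → X ^ m'`, the factors `κ b`, with the constant `o` elsewhere -/
def emb (o : ℙ ℂ (Fin N → ℂ)) (ho : o ∈ X) {k : ℕ} (κ : Fin k ↪o Fin m') : Mor d k m' X := by
  classical
  exact fun j => if h : ∃ b, κ b = j then Comp.fac h.choose 1 else Comp.const o ho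

end Pool.Agent.GBB
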