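import Pool.Agent.GBB.Defs2
import Pool.Agent.DCI57.Act

/-!
# GBB: characters
-/

set_option autoImplicit false

noncomputable section

namespace Pool.Agent.GBB

open Pool.Agent.ZCyc Pool.Agent.DCI57
open scoped LinearAlgebra.Projectivization

variable {d m m' N : ℕ}

theorem psi_ne (k : ZMod d) : psi k ≠ 0 := pow_ne_zero _ (Units.ne_zero _)

theorem psi_std [NeZero d] (k : ZMod d) : psi k = ZMod.stdAddChar k := by
  have h1 : (((k.val : ℤ)) : ZMod d) = k := by
    rw [Int.cast_natCast, ZMod.natCast_zmod_val]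
  have h2 : ZMod.stdAddChar k =
      Complex.exp (2 * Real.pi * Complex.I * ((k.val : ℤ) : ℂ) / d) := by
    rw [← ZMod.stdAddChar_coe, h1]
  rw [h2]
  unfold psi zeta
  rw [Units.val_mk0, ← Complex.exp_nat_mul]
  congr 1
  push_cast
  ring

theorem exists_psi [NeZero d] {z : ℂ} (hz : z ^ d = 1) : ∃ k : ZMod d, z = psi k := by
  obtain ⟨i, hi, h⟩ := (zeta_prim d).eq_pow_of_pow_eq_one hz
  refine ⟨(i : ZMod d), ?_⟩
  unfold psi
  rw [ZMod.val_cast_of_lt hi, h]

theorem psi_eq_one [NeZero d] {k : ZMod d} (h : psi k = 1) : k = 0 := by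
  unfold psi at h
  rw [(zeta_prim d).pow_eq_one_iff_dvd] at h
  have h1 : k.val = 0 := Nat.eq_zero_of_dvd_of_lt h (ZMod.val_lt k)
  exact (ZMod.val_eq_zero k).1 h1

theorem sum_psi_mul [NeZero d] (a : ZMod d) (ha : a ≠ 0) : ∑ k : ZMod d, psi (a * k) = 0 := by
  have h1 : psi a ≠ 1 := fun h => ha (psi_eq_one h)
  have h2 : psi a * ∑ k : ZMod d, psi (a * k) = ∑ k : ZMod d, psi (a * k) := by
    rw [Finset.mul_sum, ← Equiv.sum_comp (Equiv.addRight (1 : ZMod d)) (fun k => psi (a * k))]
    refine Finset.sum_congr rfl fun k _ => ?_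
    rw [← psi_add]
    congr 1
    simp only [Equiv.coe_addRight]
    ring
  have h3 : (psi a - 1) * ∑ k : ZMod d, psi (a * k) = 0 := by
    rw [sub_mul, one_mul, h2, sub_self]
  rcases mul_eq_zero.1 h3 with h | h
  · exact absurd (sub_eq_zero.1 h) h1
  · exact h

/-- the action of `zeta d ^ g` on points, by roots of unity -/
theorem act_eq_mk [NeZero d] (z : Fin N → rootsOfUnity d ℂ) (g : Fin N → ZMod d)
    (h : ∀ j, ((z j : ℂˣ) : ℂ) = psi (g j)) (p : ℙ ℂ (Fin N → ℂ)) :
    Projectivization.mk ℂ (fun j => ((z j : ℂˣ) : ℂ) * p.rep j) (fac_ne z p) =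
      act (zeta d) g p := by
  unfold DCI57.act
  congr 1
  funext j
  rw [h, psi]
  push_cast
  rfl

theorem stab_act [NeZero d] {X : Set (ℙ ℂ (Fin N → ℂ))} (hX : Stab d X) (g : Fin N → ZMod d)
    {p : ℙ ℂ (Fin N → ℂ)} (hp : p ∈ X) : act (zeta d) g p ∈ X := by
  have h1 : ∀ j, zeta d ^ (g j).val ∈ rootsOfUnity d ℂ := by
    intro j
    rw [mem_rootsOfUnity, ← pow_mul, mul_comm, pow_mul, zeta_pow, one_pow]
  have h2 := hX (fun j => ⟨zeta d ^ (g j).val, h1 j⟩) p hp
  rwa [act_eq_mk _ g fun j => by rw [psi]; push_cast; rfl] at h2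

theorem stab_diag [NeZero d] {r : ℕ} (c : Fin r → Fin N → ℂ) : Stab d (Diag d c) := by
  intro z p hp
  have h1 : ∀ j, ∃ k : ZMod d, ((z j : ℂˣ) : ℂ) = psi k := by
    intro j
    apply exists_psi
    have h2 := (mem_rootsOfUnity d (z j : ℂˣ)).1 (z j).2
    have h3 := congrArg (fun u : ℂˣ => (u : ℂ)) h2
    simpa using h3
  choose g hg using h1
  rw [act_eq_mk z g hg]
  exact act_mem (zeta_pow d) hp g

private theorem bas_actM [NeZero d] (g h : Fin m → Fin N → ZMod d) (p : Pts m N) :
    actM g (actM h p) = actM (g + h) p := by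
  funext i
  exact act_act (zeta_pow d) (g i) (h i) (p i)

private theorem bas_actM_zero [NeZero d] (p : Pts m N) :
    actM (0 : Fin m → Fin N → ZMod d) p = p := by
  funext i
  exact act_zero (zeta d) (p i)

theorem E_act [NeZero d] (X : Set (ℙ ℂ (Fin N → ℂ))) (a h : Fin m → Fin N → ZMod d)
    (p : Pts m N) : E X a (actM h p) = psi (-∑ i, ∑ j, a i j * h i j) • E X a p := by
  unfold E
  rw [Finset.smul_sum]
  refine Fintype.sum_equiv (Equiv.addRight h) _ _ fun g => ?_
  rw [bas_actM, smul_smul]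
  congr 1
  rw [← psi_add]
  congr 1
  simp only [Equiv.coe_addRight, Pi.add_apply, mul_add, Finset.sum_add_distrib]
  ring

private theorem bas_sum [NeZero d] (k : Fin m → Fin N → ZMod d) :
    ∑ a : Fin m → Fin N → ZMod d, psi (∑ i, ∑ j, a i j * k i j) =
      if k = 0 then (d : ℂ) ^ (m * N) else 0 := by
  by_cases hk : k = 0
  · rw [if_pos hk, hk]
    simp only [Pi.zero_apply, mul_zero, Finset.sum_const_zero, psi_zero,
      Finset.sum_const, Finset.card_univ, Fintype.card_pi, ZMod.card, Finset.prod_const,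
      Fintype.card_fin, nsmul_eq_mul, mul_one]
    rw [← pow_mul, mul_comm N m]
    push_cast
    rfl
  · rw [if_neg hk]
    obtain ⟨i₀, j₀, h⟩ : ∃ i j, k i j ≠ 0 := by
      by_contra hcon
      push Not at hcon
      exact hk (funext fun i => funext fun j => hcon i j)
    set e : Fin m → Fin N → ZMod d := fun i j => if i = i₀ ∧ j = j₀ then 1 else 0 with he
    have hs : ∑ i, ∑ j, e i j * k i j = k i₀ j₀ := by
      rw [Finset.sum_eq_single i₀]
      · rw [Finset.sum_eq_single j₀]
        · simp [he]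
        · intro j _ hj
          simp [he, hj]
        · intro h
          exact absurd (Finset.mem_univ _) h
      · intro i _ hi
        exact Finset.sum_eq_zero fun j _ => by simp [he, hi]
      · intro h
        exact absurd (Finset.mem_univ _) h
    have h1 : ∑ a : Fin m → Fin N → ZMod d, psi (∑ i, ∑ j, a i j * k i j) =
        psi (-k i₀ j₀) * ∑ a : Fin m → Fin N → ZMod d, psi (∑ i, ∑ j, a i j * k i j) := by
      rw [Finset.mul_sum]
      refine Fintype.sum_equiv (Equiv.addRight e) _ _ fun a => ?_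
      rw [← psi_add]
      congr 1
      simp only [Equiv.coe_addRight, Pi.add_apply, add_mul, Finset.sum_add_distrib]
      rw [hs]
      ring
    have h2 : (1 - psi (-k i₀ j₀)) *
        ∑ a : Fin m → Fin N → ZMod d, psi (∑ i, ∑ j, a i j * k i j) = 0 := by
      linear_combination h1
    rcases mul_eq_zero.1 h2 with h3 | h3
    · exfalso
      apply h
      have h4 := psi_eq_one (sub_eq_zero.1 h3).symm
      exact neg_eq_zero.1 h4
    · exact h3

theorem sum_E [NeZero d] (X : Set (ℙ ℂ (Fin N → ℂ))) (p : Pts m N) :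
    ∑ a : Fin m → Fin N → ZMod d, E X a p = ((d : ℂ) ^ (m * N)) • cl X p := by
  unfold E
  rw [Finset.sum_comm]
  simp only [← Finset.sum_smul, bas_sum]
  rw [Finset.sum_eq_single 0]
  · rw [if_pos rfl, bas_actM_zero]
  · intro k _ hk
    rw [if_neg hk, zero_smul]
  · intro h
    exact absurd (Finset.mem_univ _) h

theorem E_zero_of_sum [NeZero d] (X : Set (ℙ ℂ (Fin N → ℂ))) (a : Fin m → Fin N → ZMod d)
    (p : Pts m N) (i₀ : Fin m) (h : ∑ j, a i₀ j ≠ 0) : E X a p = 0 := by
  have h1 := E_act X a (fun i _ => if i = i₀ then 1 else 0) p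
  have h2 : actM (fun i (_ : Fin N) => if i = i₀ then (1 : ZMod d) else 0) p = p := by
    funext i
    exact act_const (zeta d) _ (p i)
  have h3 : ∑ i, ∑ j, a i j * (if i = i₀ then 1 else 0) = ∑ j, a i₀ j := by
    rw [Finset.sum_eq_single i₀]
    · simp
    · intro i _ hi
      exact Finset.sum_eq_zero fun j _ => by rw [if_neg hi, mul_zero]
    · intro h
      exact absurd (Finset.mem_univ _) h
  rw [h2, h3] at h1
  have h4 : (1 - psi (-∑ j, a i₀ j)) • E X a p = 0 := by
    rw [sub_smul, one_smul, ← h1, sub_self]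
  rcases smul_eq_zero.1 h4 with h5 | h5
  · exact absurd (neg_eq_zero.1 (psi_eq_one (sub_eq_zero.1 h5).symm)) h
  · exact h5

end Pool.Agent.GBB
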