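import Pool.Agent.GBB.Core2
import Pool.Agent.VCI.SwapPartA

/-!
# The exchange of two points in the part of one character
-/

open Polynomial
open scoped LinearAlgebra.Projectivization

namespace Pool.Agent.GBB

open Pool.Agent.ZCyc Pool.Agent.DCI57 Pool.Agent.ZVois Pool.Agent.VCI

universe u w

/-- a polynomial is the product of linear factors -/
private lemma exists_factor {k : Type u} [Field k] [IsAlgClosed k] {q : k[X]} {n : ℕ}
    (hn : q.natDegree = n) (hq : q ≠ 0) :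
    ∃ (a : k) (α : Fin n → k), a ≠ 0 ∧ ∀ x, q.eval x = a * ∏ i, (x - α i) := by
  have hs : q.Splits := IsAlgClosed.splits q
  have hc : q.roots.toList.length = n := by
    rw [Multiset.length_toList, ← hs.natDegree_eq_card_roots, hn]
  subst hc
  refine ⟨q.leadingCoeff, fun i => q.roots.toList.get i, leadingCoeff_ne_zero.2 hq, fun x => ?_⟩
  conv_lhs => rw [hs.eq_prod_roots]
  rw [eval_mul, eval_C]
  congr 1
  have h1 : (q.roots.map fun a => X - C a).prod = (q.roots.toList.map fun a => X - C a).prod := by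
    conv_lhs => rw [← Multiset.coe_toList q.roots]
    rw [Multiset.map_coe, Multiset.prod_coe]
  rw [h1, ← List.prod_ofFn]
  have h2 : (List.ofFn fun i => x - q.roots.toList.get i) =
      q.roots.toList.map fun a => x - a := by
    apply List.ext_getElem
    · simp
    · intro i h3 h4
      simp
  rw [h2]
  generalize q.roots.toList = l
  induction l with
  | nil => simp
  | cons b l ih => simp [ih]

section

variable {k : Type u} [Field k] {J : Type} {m : ℕ} [NeZero m]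

/-- a point whose coordinates have proportional `m`-th powers is a twist -/
private lemma exists_twist [IsAlgClosed k] {ζ : kˣ} (hζ : IsPrimitiveRoot (ζ : k) m)
    {p : ℙ k (J → k)} {v : J → k} (hv : v ≠ 0) (hv0 : ∀ j, v j ≠ 0) {a : k} (ha : a ≠ 0)
    (h : ∀ j, p.rep j ^ m = a * v j ^ m) :
    ∃ g : J → ZMod m, p = act ζ g (Projectivization.mk k v hv) := by
  obtain ⟨γ, hγ⟩ := IsAlgClosed.exists_pow_nat_eq a (NeZero.pos m)
  have hγ0 : γ ≠ 0 := by
    rintro rfl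
    rw [zero_pow (NeZero.ne m)] at hγ
    exact ha hγ.symm
  have h1 : ∀ j, ∃ i < m, (ζ : k) ^ i = p.rep j / (γ * v j) := by
    intro j
    apply hζ.eq_pow_of_pow_eq_one
    have h2 := hv0 j
    rw [div_pow, mul_pow, hγ, h j, div_self]
    exact mul_ne_zero ha (pow_ne_zero _ h2)
  choose i hi hi' using h1
  refine ⟨fun j => (i j : ZMod m), ?_⟩
  obtain ⟨b, hb, h3⟩ := mk_rep_exists hv
  obtain ⟨c, hc, h4⟩ := act_rep ζ (fun j => (i j : ZMod m)) (Projectivization.mk k v hv)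
  apply eq_of_rep (a := γ * (c * b)⁻¹)
  intro j
  have h5 := hv0 j
  rw [h4, h3, ZMod.val_cast_of_lt (hi j), Units.val_pow_eq_pow_val, hi' j]
  field_simp

private lemma vec_perm {n : ℕ} {K : Type} (η : J → k) (β : K → J → k) (γ : Fin n → K) (τ : Equiv.Perm (Fin n)) :
    vec η β (fun i => γ (τ i)) = vec η β γ := by
  funext j
  simp only [vec]
  congr 1
  exact Equiv.prod_comp τ fun i => β (γ i) j

end

section

variable {k : Type u} [Field k] [IsAlgClosed k] [CharZero k] {J : Type} [Fintype J]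
  [DecidableEq J] {m : ℕ} [NeZero m] {R : Type w} [Field R] [CharZero R]

omit [IsAlgClosed k] [CharZero k] in
/-- the swap identity for two points given by points of the curve -/
private lemma swap_vec {ζ : kˣ} {n r : ℕ} {l e : J → k} {ψ : AddChar (J → ZMod m) R}
    (hcore : CoreHyp ζ ψ n r l e)
    {α : Fin n ⊕ Fin n → k} {β : Fin n ⊕ Fin n → J → k} {η : J → k}
    (hβ : ∀ c j, β c j ^ m = e j - α c) (hβ0 : ∀ c j, β c j ≠ 0)
    (hη : ∀ j, η j ^ m = wt l e j) (h0 : ∀ γ : Fin n → Fin n ⊕ Fin n, vec η β γ ≠ 0) :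
    op2 ζ ψ ψ (Finsupp.single (Projectivization.mk k (vec η β Sum.inl) (h0 _),
        Projectivization.mk k (vec η β Sum.inr) (h0 _)) 1) -
      (-1 : R) ^ n • op2 ζ ψ ψ (Finsupp.single (Projectivization.mk k (vec η β Sum.inr) (h0 _),
        Projectivization.mk k (vec η β Sum.inl) (h0 _)) 1) ∈
      ratEquiv2 R (Diag m (osc l e r)) := by
  let N := ratEquiv2 R (Diag m (osc l e r))
  let P : (Fin n → Fin n ⊕ Fin n) → ℙ k (J → k) := fun γ =>
    Projectivization.mk k (vec η β γ) (h0 γ)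
  let H : (Fin n → Fin n ⊕ Fin n) → (Fin n → Fin n ⊕ Fin n) →
      (ℙ k (J → k) × ℙ k (J → k) →₀ R) ⧸ N := fun γ γ' =>
    N.mkQ (op2 ζ ψ ψ (Finsupp.single (P γ, P γ') 1))
  let G : Equiv.Perm (Fin n ⊕ Fin n) → (ℙ k (J → k) × ℙ k (J → k) →₀ R) ⧸ N := fun π =>
    H (fun i => π (Sum.inl i)) (fun i => π (Sum.inr i))
  have hG : ∀ (π : Equiv.Perm (Fin n ⊕ Fin n)) (x : Fin n),
      ∑ τ : Equiv.Perm (Fin (n + 1)), G (π * τ.viaEmbedding (emb n x)) = 0 := by
    intro π x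
    have h1 := hcore (fun c => α (π c)) (fun c => β (π c)) η
      (fun c j => hβ (π c) j) (fun c j => hβ0 (π c) j) hη (fun γ => h0 fun i => π (γ i)) x
    have h2 : N.mkQ (∑ τ : Equiv.Perm (Fin (n + 1)), op2 ζ ψ ψ (Finsupp.single
        (P (fun i => π (τ.viaEmbedding (emb n x) (Sum.inl i))),
          P (fun i => π (τ.viaEmbedding (emb n x) (Sum.inr i)))) 1)) = 0 := by
      rw [Submodule.mkQ_apply, Submodule.Quotient.mk_eq_zero]
      exact h1
    rw [map_sum] at h2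
    exact h2
  have hP : ∀ (γ : Fin n → Fin n ⊕ Fin n) (τ : Equiv.Perm (Fin n)),
      P (fun i => γ (τ i)) = P γ := by
    intro γ τ
    simp only [P, vec_perm]
  have h1 := swap_identity (R := R) G hG
  have h2 : ∀ τ : Equiv.Perm (Fin n) × Equiv.Perm (Fin n),
      G (Equiv.Perm.sumCongr τ.1 τ.2) = H Sum.inl Sum.inr := by
    intro τ
    simp only [G, H, Equiv.Perm.sumCongr_apply, Sum.map_inl, Sum.map_inr]
    rw [hP Sum.inl τ.1, hP Sum.inr τ.2]
  have h3 : ∀ τ : Equiv.Perm (Fin n) × Equiv.Perm (Fin n),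
      G (Equiv.sumComm (Fin n) (Fin n) * Equiv.Perm.sumCongr τ.1 τ.2) = H Sum.inr Sum.inl := by
    intro τ
    simp only [G, H, Equiv.Perm.coe_mul, Function.comp_apply, Equiv.Perm.sumCongr_apply,
      Sum.map_inl, Sum.map_inr, Equiv.sumComm_apply, Sum.swap_inl, Sum.swap_inr]
    rw [hP Sum.inr τ.1, hP Sum.inl τ.2]
  simp only [h2, h3, Finset.sum_const, Finset.card_univ] at h1
  rw [smul_comm, ← Nat.cast_smul_eq_nsmul R, ← Nat.cast_smul_eq_nsmul R, ← sub_eq_zero,
    ← smul_sub] at h1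
  have h4 : (Fintype.card (Equiv.Perm (Fin n) × Equiv.Perm (Fin n)) : R) ≠ 0 := by
    exact_mod_cast (Fintype.card_pos (α := Equiv.Perm (Fin n) × Equiv.Perm (Fin n))).ne'
  have h5 := (smul_eq_zero.1 h1).resolve_left h4
  have h6 : N.mkQ (op2 ζ ψ ψ (Finsupp.single (P Sum.inl, P Sum.inr) 1) -
      (-1 : R) ^ n • op2 ζ ψ ψ (Finsupp.single (P Sum.inr, P Sum.inl) 1)) = 0 := by
    rw [map_sub, map_smul]
    exact h5
  rwa [Submodule.mkQ_apply, Submodule.Quotient.mk_eq_zero] at h6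

/-- the exchange of two points for one character -/
theorem swap2 {ζ : kˣ} (hζ : IsPrimitiveRoot (ζ : k) m) (hm : 1 < m) {n r : ℕ} (hr : 1 ≤ r)
    {l e : J → k} (he : Function.Injective e) (hl : ∀ j, l j ≠ 0)
    (hJn : Fintype.card J = n + r + 1) {a : J → ℕ} (ha : ∀ j, ¬ m ∣ a j) {b : J → Fin r}
    (hb : Function.Surjective b) (hsum : ∀ B, m ∣ ∑ j with b j = B, a j) {ω : R}
    (hω : IsPrimitiveRoot ω m) {ψ : AddChar (J → ZMod m) R}
    (hψ : ∀ t, ψ t = ω ^ (∑ j, (a j : ZMod m) * t j).val) {p q : ℙ k (J → k)}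
    (hp : p ∈ Diag m (osc l e r)) (hq : q ∈ Diag m (osc l e r)) :
    op2 ζ ψ ψ (Finsupp.single (p, q) 1) - (-1 : R) ^ n • op2 ζ ψ ψ (Finsupp.single (q, p) 1) ∈
      ratEquiv2 R (Diag m (osc l e r)) := by
  have hcore : ∀ l e : J → k, Function.Injective e → (∀ j, l j ≠ 0) →
      CoreHyp ζ ψ n r l e := fun _ _ he' hl' _ _ _ hβ hβ0 hη h0 x =>
    core2 hζ hm hr he' hl' hJn ha hb hsum hω hψ hβ hβ0 hη h0 x
  have hζ' : ζ ^ m = 1 := by
    apply Units.ext
    rw [Units.val_pow_eq_pow_val, hζ.pow_eq_one, Units.val_one]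
  -- the character is not trivial on the coordinate twists
  have hψ1 : ∀ j, ψ (Pi.single j 1) ≠ 1 := by
    intro j h1
    rw [hψ, Fintype.sum_eq_single j (fun i hi => by
      rw [Pi.single_eq_of_ne hi, mul_zero]), Pi.single_eq_same, mul_one] at h1
    have h2 := (hω.pow_eq_one_iff_dvd _).1 h1
    have h3 := Nat.eq_zero_of_dvd_of_lt h2 (ZMod.val_lt _)
    exact ha j ((ZMod.natCast_eq_zero_iff _ _).1 ((ZMod.val_eq_zero _).1 h3))
  by_cases hp0 : ∃ j, p.rep j = 0
  · obtain ⟨j, hj⟩ := hp0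
    rw [op2_eq_zero hζ' ψ ψ (Or.inl ⟨j, hj, hψ1 j⟩), op2_eq_zero hζ' ψ ψ (Or.inr ⟨j, hj, hψ1 j⟩),
      smul_zero, sub_zero]
    exact Submodule.zero_mem _
  by_cases hq0 : ∃ j, q.rep j = 0
  · obtain ⟨j, hj⟩ := hq0
    rw [op2_eq_zero hζ' ψ ψ (Or.inr ⟨j, hj, hψ1 j⟩), op2_eq_zero hζ' ψ ψ (Or.inl ⟨j, hj, hψ1 j⟩),
      smul_zero, sub_zero]
    exact Submodule.zero_mem _
  push Not at hp0 hq0
  obtain ⟨s, rfl⟩ : ∃ s, r = s + 1 := ⟨r - 1, by omega⟩
  -- change of the coordinate on the line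
  have hy : (fun j => p.rep j ^ m) ≠ 0 := by
    intro h
    apply p.rep_nonzero
    funext j
    exact absurd (pow_eq_zero_iff (NeZero.ne m) |>.1 (congrFun h j)) (hp0 j)
  have hy' : (fun j => q.rep j ^ m) ≠ 0 := by
    intro h
    apply q.rep_nonzero
    funext j
    exact absurd (pow_eq_zero_iff (NeZero.ne m) |>.1 (congrFun h j)) (hq0 j)
  obtain ⟨c, hc, hc1, hc2⟩ := exists_center he hl hy hy'
  have hX := diag_osc_eq (l := l) m hc s
  have hl' : ∀ j, l j * (e j - c) ^ s ≠ 0 := fun j =>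
    mul_ne_zero (hl j) (pow_ne_zero _ (sub_ne_zero.2 (hc j)))
  have he' : Function.Injective fun j => (e j - c)⁻¹ := by
    intro i j hij
    exact he (sub_left_injective (inv_injective hij))
  have hlead : ∀ z : J → k, ∑ j, l j * z j * (e j - c)⁻¹ ≠ 0 →
      ∑ j, (l j * (e j - c) ^ s) * ((e j - c)⁻¹) ^ (s + 1) * z j ≠ 0 := by
    intro z hz h
    apply hz
    rw [← h]
    refine Finset.sum_congr rfl fun j _ => ?_
    have h1 : e j - c ≠ 0 := sub_ne_zero.2 (hc j)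
    rw [inv_pow, pow_succ]
    field_simp
  rw [← hX] at hp hq ⊢
  generalize hlg : (fun j => l j * (e j - c) ^ s) = l' at *
  generalize heg : (fun j => (e j - c)⁻¹) = e' at *
  have hl'' : ∀ j, l' j ≠ 0 := by
    intro j
    rw [← hlg]
    exact hl' j
  obtain ⟨Q, hQ, hQy⟩ := exists_interp he' hl'' hJn hp (by
    rw [← hlg, ← heg]
    exact hlead _ hc1)
  obtain ⟨Q', hQ', hQy'⟩ := exists_interp he' hl'' hJn hq (by
    rw [← hlg, ← heg]
    exact hlead _ hc2)
  have hJ0 : Nonempty J := by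
    apply Fintype.card_pos_iff.1
    omega
  obtain ⟨j₀⟩ := hJ0
  have hev : ∀ j, Q.eval (e' j) ≠ 0 := by
    intro j h
    have h1 := hQy j
    rw [h, mul_zero] at h1
    exact pow_ne_zero _ (hp0 j) h1
  have hev' : ∀ j, Q'.eval (e' j) ≠ 0 := by
    intro j h
    have h1 := hQy' j
    rw [h, mul_zero] at h1
    exact pow_ne_zero _ (hq0 j) h1
  have hQ0 : Q ≠ 0 := by
    rintro rfl
    exact hev j₀ eval_zero
  have hQ0' : Q' ≠ 0 := by
    rintro rfl
    exact hev' j₀ eval_zero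
  obtain ⟨a, α₁, ha, h1⟩ := exists_factor hQ hQ0
  obtain ⟨a', α₂, ha', h2⟩ := exists_factor hQ' hQ0'
  let α : Fin n ⊕ Fin n → k := Sum.elim α₁ α₂
  have hα : ∀ c j, e' j - α c ≠ 0 := by
    rintro (i | i) j h
    · apply hev j
      rw [h1, Finset.prod_eq_zero (Finset.mem_univ i) h, mul_zero]
    · apply hev' j
      rw [h2, Finset.prod_eq_zero (Finset.mem_univ i) h, mul_zero]
  have h3 : ∀ (c : Fin n ⊕ Fin n) (j : J), ∃ b : k, b ^ m = e' j - α c := fun c j =>
    IsAlgClosed.exists_pow_nat_eq _ (NeZero.pos m)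
  choose β hβ using h3
  have h4 : ∀ j : J, ∃ b : k, b ^ m = wt l' e' j := fun j =>
    IsAlgClosed.exists_pow_nat_eq _ (NeZero.pos m)
  choose η hη using h4
  have hβ0 : ∀ c j, β c j ≠ 0 := by
    intro c j h
    apply hα c j
    rw [← hβ, h, zero_pow (NeZero.ne m)]
  have hη0 : ∀ j, η j ≠ 0 := by
    intro j h
    have h5 := hQy j
    rw [← hη, h, zero_pow (NeZero.ne m), zero_mul] at h5
    exact pow_ne_zero _ (hp0 j) h5
  have hv0 : ∀ (γ : Fin n → Fin n ⊕ Fin n) (j : J), vec η β γ j ≠ 0 := by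
    intro γ j
    exact mul_ne_zero (hη0 j) (Finset.prod_ne_zero_iff.2 fun i _ => hβ0 _ _)
  have h0 : ∀ γ : Fin n → Fin n ⊕ Fin n, vec η β γ ≠ 0 := by
    intro γ h
    exact hv0 γ j₀ (congrFun h j₀)
  have hpow : ∀ (γ : Fin n → Fin n ⊕ Fin n) (j : J),
      vec η β γ j ^ m = wt l' e' j * ∏ i, (e' j - α (γ i)) := by
    intro γ j
    simp only [vec, mul_pow, hη, ← Finset.prod_pow, hβ]
  obtain ⟨g, hg⟩ := exists_twist hζ (p := p) (h0 Sum.inl) (hv0 Sum.inl) ha (by
    intro j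
    rw [hQy j, h1, hpow]
    simp only [α, Sum.elim_inl]
    ring)
  obtain ⟨g', hg'⟩ := exists_twist hζ (p := q) (h0 Sum.inr) (hv0 Sum.inr) ha' (by
    intro j
    rw [hQy' j, h2, hpow]
    simp only [α, Sum.elim_inr]
    ring)
  have h5 := swap_vec (hcore l' e' he' hl'') hβ hβ0 hη h0
  have h6 := op2_act hζ' ψ ψ g g' (Projectivization.mk k (vec η β Sum.inl) (h0 _))
    (Projectivization.mk k (vec η β Sum.inr) (h0 _))
  have h7 := op2_act hζ' ψ ψ g' g (Projectivization.mk k (vec η β Sum.inr) (h0 _))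
    (Projectivization.mk k (vec η β Sum.inl) (h0 _))
  rw [← hg, ← hg'] at h6 h7
  rw [← h6, ← h7, smul_comm ((-1 : R) ^ n), mul_comm (ψ g'), ← smul_sub] at h5
  have h8 : ψ g * ψ g' ≠ 0 := by
    rw [hψ, hψ]
    exact mul_ne_zero (pow_ne_zero _ (hω.ne_zero (NeZero.ne m)))
      (pow_ne_zero _ (hω.ne_zero (NeZero.ne m)))
  exact (Submodule.smul_mem_iff _ h8).1 h5

end

end Pool.Agent.GBB
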