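import Pool.Agent.GBB.Defs3
import Pool.Agent.GBB.Swap2

/-!
# The exchange of two factors for osculating systems
-/

set_option autoImplicit false

noncomputable section

namespace Pool.Agent.GBB

open Pool.Agent.ZCyc Pool.Agent.DCI57
open Pool.Agent.VCI (op2 ratEquiv2)
open scoped LinearAlgebra.Projectivization

variable {d N : ℕ}

theorem hasSwap_osc [NeZero d] (hd : 1 < d) {n r : ℕ} (hr : 1 ≤ r) (hN : N = n + r + 1)
    {l e : Fin N → ℂ} (he : Function.Injective e) (hl : ∀ j, l j ≠ 0) :
    HasSwap (d := d) n r (osc l e r) := by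
  intro a t b h p q hp hq
  obtain ⟨-, -, -, ha, B, hB, hs⟩ := h
  refine swap2 (k := ℂ) (R := ℂ) (J := Fin N) (m := d) (ζ := zeta d) (zeta_prim d) hd hr he hl
    (by rw [Fintype.card_fin]; exact hN) (a := fun j => (a j).val) ?_ hB ?_
    (zeta_prim d) (ψ := chi a) ?_ hp hq
  · intro j hj
    apply ha j
    have h1 := Nat.eq_zero_of_dvd_of_lt hj (ZMod.val_lt _)
    exact (ZMod.val_eq_zero _).1 h1
  · intro s
    rw [← ZMod.natCast_eq_zero_iff]
    push_cast
    rw [← hs s]
    exact Finset.sum_congr rfl fun j _ => ZMod.natCast_zmod_val _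
  · intro u
    rw [chi_apply]
    congr 2
    exact Finset.sum_congr rfl fun j _ => by rw [ZMod.natCast_zmod_val]

end Pool.Agent.GBB
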