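import Pool.Agent.DCI57.Defs

/-!
# Zero-cycles on the powers of a diagonal complete intersection: definitions

`X` is the variety with the equations `∑ j, c s j * x j ^ d = 0`, `s < r`, in the complex projective
space with `N` homogeneous coordinates. We define the zero-cycles on `X ^ m` which are rationally
equivalent to zero, a filtration on the zero-cycles, the morphisms `X ^ m → X ^ m'` all of whose
components are constant or a factor followed by a diagonal automorphism of `X`, and their action on
zero-cycles and on holomorphic forms. Points of curves (`Place`), the values of a morphism from a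
curve to the projective space (`IsValue`) and the variety `X` (`Diag d c`) are defined in
`Pool.Agent.ZCyc.Defs` and `Pool.Agent.DCI57.Defs`.
-/

set_option autoImplicit false

noncomputable section

namespace Pool.Agent.GBB

open Pool.Agent.ZCyc Pool.Agent.DCI57
open scoped LinearAlgebra.Projectivization

/-- The points of the `m`-th power of the projective space with `N` homogeneous coordinates. -/
abbrev Pts (m N : ℕ) : Type := Fin m → ℙ ℂ (Fin N → ℂ)

/-- The coefficients of the equations `∑ j, l j * e j ^ s * x j ^ d = 0`, `s < r`. -/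
def osc {N : ℕ} (l e : Fin N → ℂ) (r : ℕ) : Fin r → Fin N → ℂ := fun s j => l j * e j ^ (s : ℕ)

/-- The zero-cycles on `X ^ m` with coefficients in `R` which are rationally equivalent to zero:
the span of the cycles `φ_* (π^* a - π^* b)`, for all finite Galois coverings `π : D → ℙ¹` of
smooth projective curves, given by extensions `F` of `ℂ(t)`, all points `a` and `b` (`≠ ∞`) of
`ℙ¹`, and all morphisms `φ` from `D` to `X ^ m`, whose component with number `i` has the homogeneous
coordinates `x i`. Here `π^* a` is the sum of the points `τ v`, for all `τ` in the Galois group,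
where `v` is a point of `D` above `a`. (Every function on a curve is dominated by a Galois covering,
so this is rational equivalence with coefficients in the field `R` of characteristic zero.) -/
def ratEq (R : Type) [Field R] {N : ℕ} (X : Set (ℙ ℂ (Fin N → ℂ))) (m : ℕ) :
    Submodule R (Pts m N →₀ R) :=
  Submodule.span R {z | ∃ (F : Type) (_ : Field F) (_ : Algebra ℂ F) (_ : Algebra (RatFunc ℂ) F)
    (_ : IsScalarTower ℂ (RatFunc ℂ) F) (_ : FiniteDimensional (RatFunc ℂ) F)
    (_ : IsGalois (RatFunc ℂ) F) (x : Fin m → Fin N → F) (φ : Place ℂ F → Pts m N)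
    (_ : ∀ v i, IsValue v (x i) (φ v i)) (_ : ∀ v i, φ v i ∈ X) (a b : ℂ) (v w : Place ℂ F)
    (_ : v.Vanishes (algebraMap (RatFunc ℂ) F (RatFunc.X - RatFunc.C a)))
    (_ : w.Vanishes (algebraMap (RatFunc ℂ) F (RatFunc.X - RatFunc.C b))),
    z = ∑ τ : F ≃ₐ[RatFunc ℂ] F, (Finsupp.single (φ (v.map (τ.restrictScalars ℂ))) 1 -
      Finsupp.single (φ (w.map (τ.restrictScalars ℂ))) 1)}

/-- The point lies on `X ^ m`. -/
def OnX {m N : ℕ} (X : Set (ℙ ℂ (Fin N → ℂ))) (p : Pts m N) : Prop := ∀ i, p i ∈ X

/-- The product of the differences `[x i] - [y i]` for `i ∈ I` and of the points `x i` for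
`i ∉ I`. -/
def cyc {m N : ℕ} (I : Finset (Fin m)) (x y : Pts m N) : Pts m N →₀ ℚ :=
  ∑ S ∈ I.powerset, Finsupp.single (fun i => if i ∈ S then y i else x i) ((-1) ^ S.card)

/-- The filtration on the zero-cycles of `X ^ m`, where `n = dim X`: its step with number `ν` is
spanned by the products of zero-cycles on `X` of which at least `ν / n` have degree zero, together
with the cycles which are rationally equivalent to zero. -/
def Fil (n : ℕ) {N : ℕ} (X : Set (ℙ ℂ (Fin N → ℂ))) (m ν : ℕ) : Submodule ℚ (Pts m N →₀ ℚ) :=
  Submodule.span ℚ {z | ∃ (I : Finset (Fin m)) (x y : Pts m N), OnX X x ∧ OnX X y ∧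
    ν ≤ n * I.card ∧ z = cyc I x y} ⊔ ratEq ℚ X m

variable {d m m' N : ℕ} {X : Set (ℙ ℂ (Fin N → ℂ))}

/-- A morphism from `X ^ m` to `X`: a constant (a point of `X`), or the factor with number `i`
followed by the automorphism `x ↦ (ζ j * x j)_j` of `X`, all `ζ j` being `d`-th roots of unity. -/
inductive Comp (d m : ℕ) {N : ℕ} (X : Set (ℙ ℂ (Fin N → ℂ))) : Type
  | const (p : ℙ ℂ (Fin N → ℂ)) (hp : p ∈ X) : Comp d m X
  | fac (i : Fin m) (ζ : Fin N → rootsOfUnity d ℂ) : Comp d m X

/-- The morphisms from `X ^ m` to `X ^ m'`: projections, diagonals, constants, permutations of the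
factors, diagonal automorphisms and everything composed from them. -/
abbrev Mor (d m m' : ℕ) {N : ℕ} (X : Set (ℙ ℂ (Fin N → ℂ))) : Type := Fin m' → Comp d m X

theorem fac_ne (ζ : Fin N → rootsOfUnity d ℂ) (p : ℙ ℂ (Fin N → ℂ)) :
    (fun j => ((ζ j : ℂˣ) : ℂ) * p.rep j) ≠ 0 := by
  intro h
  apply p.rep_nonzero
  funext j
  have := congrFun h j
  simpa using this

/-- The value of the component at a point. -/
def Comp.app (f : Comp d m X) (x : Pts m N) : ℙ ℂ (Fin N → ℂ) :=
  match f with
  | .const p _ => p
  | .fac i ζ => Projectivization.mk ℂ (fun j => ((ζ j : ℂˣ) : ℂ) * (x i).rep j) (fac_ne ζ (x i))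

/-- The value of the morphism at a point. -/
def Mor.app (f : Mor d m m' X) (x : Pts m N) : Pts m' N := fun j => (f j).app x

/-- The push-forward of zero-cycles by a combination of morphisms (a correspondence). -/
def pushM (γ : Mor d m m' X →₀ ℚ) : (Pts m N →₀ ℚ) →ₗ[ℚ] (Pts m' N →₀ ℚ) :=
  γ.sum fun f c => c • Finsupp.lmapDomain ℚ ℚ f.app

/-- `P` is homogeneous of degree `e` in every one of the `k` groups of `N` variables. If `X` is the
complete intersection of `r` hypersurfaces `f s = 0` of degree `d` and `e = r * d - N`, these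
polynomials modulo the ideal generated by the `f s` (in each group) are the holomorphic forms of top
degree on `X ^ k`: `H⁰(X, K)` is the space of the residues of `P Ω / ∏ f s`, where
`Ω = ∑ (-1)ʲ x_j dx_0 ∧ ⋯ ∧ dx_{j-1} ∧ dx_{j+1} ∧ ⋯`, and `H⁰(X ^ k, K)` is its `k`-th tensor power.
(If `e < d` then the ideal does not contribute.) -/
def MultiHom {k : ℕ} (e : ℕ) (P : MvPolynomial (Fin k × Fin N) ℂ) : Prop :=
  ∀ s ∈ P.support, ∀ i, ∑ j, s (i, j) = e

/-- An automorphism of `X ^ k`: it permutes the factors, and multiplies the coordinates of every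
factor by `d`-th roots of unity; `x ↦ (ζ b j * x (σ b) j)`. -/
abbrev Sym (d k N : ℕ) : Type := Equiv.Perm (Fin k) × (Fin k → Fin N → rootsOfUnity d ℂ)

/-- The pull-back of a holomorphic form of top degree by the automorphism of `X ^ k`, where
`n = dim X`. The sign comes from the permutation of forms of degree `n`, and the product of the
roots of unity from the pull-back of `Ω`. -/
def Sym.pull {k : ℕ} (n : ℕ) (g : Sym d k N) (P : MvPolynomial (Fin k × Fin N) ℂ) :
    MvPolynomial (Fin k × Fin N) ℂ :=
  ((((Equiv.Perm.sign g.1 : ℤˣ) : ℤ) : ℂ) ^ n * ∏ b, ∏ j, ((g.2 b j : ℂˣ) : ℂ)) •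
    MvPolynomial.aeval (fun J : Fin k × Fin N =>
      MvPolynomial.C ((g.2 J.1 J.2 : ℂˣ) : ℂ) * MvPolynomial.X (g.1 J.1, J.2)) P

/-- `I` and `J` are increasing sequences of `k` factors of `X ^ m` and `X ^ m'`. The component
`J b` of `f` is the factor `I (σ b)` followed by the diagonal automorphism `ζ b`, so that `f`
induces the isomorphism `(σ, ζ)` from `X ^ k` (the factors `I`) to `X ^ k` (the factors `J`). -/
def Induces (f : Mor d m m' X) {k : ℕ} (I : Fin k ↪o Fin m) (J : Fin k ↪o Fin m')
    (g : Sym d k N) : Prop :=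
  ∀ b, f (J b) = Comp.fac (I (g.1 b)) (g.2 b)

/-- `H⁰(X ^ m', Ω^(n k))` is the direct sum over all increasing sequences `J` of `k` factors of the
spaces of forms of top degree on `X ^ k` (the factors `J`), i.e. of polynomials `P`, and likewise
for `X ^ m`. This is the component with index `I` of the pull-back by `f` of the form `P` with
index `J`. -/
def pullComp (n : ℕ) (f : Mor d m m' X) {k : ℕ} (I : Fin k ↪o Fin m) (J : Fin k ↪o Fin m')
    (P : MvPolynomial (Fin k × Fin N) ℂ) : MvPolynomial (Fin k × Fin N) ℂ := by
  classical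
  exact if h : ∃ g, Induces f I J g then Sym.pull n h.choose P else 0

/-- The correspondence `γ` from `X ^ m` to `X ^ m'` acts as zero on the holomorphic `ν`-forms,
where `X` is a complete intersection of dimension `n` of `r` hypersurfaces of degree `d`. (There are
none except for `ν = n k`; for `k = 0` they are the constants, for `k > 0` the polynomials are of
degree `r * d - N` in every group of variables.) -/
def KillsNuForms (n r : ℕ) (γ : Mor d m m' X →₀ ℚ) (ν : ℕ) : Prop :=
  ∀ k : ℕ, ν = n * k → ∀ e : ℕ, (k = 0 ∨ e + N = r * d) →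
    ∀ (I : Fin k ↪o Fin m) (J : Fin k ↪o Fin m') (P : MvPolynomial (Fin k × Fin N) ℂ),
      MultiHom e P → (γ.sum fun f c => (c : ℂ) • pullComp n f I J P) = 0

end Pool.Agent.GBB
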