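import Pool.Agent.GBB.Defs2

/-!
# The coefficients of a combination of automorphisms which kills all forms
-/

set_option autoImplicit false

noncomputable section

namespace Pool.Agent.GBB

open Pool.Agent.ZCyc Pool.Agent.DCI57
open scoped LinearAlgebra.Projectivization

variable {d m m' N : ℕ}

/-- the permutation of the coordinates -/
private def cperm {k : ℕ} (g : Sym d k N) : Equiv.Perm (Fin k × Fin N) :=
  Equiv.prodCongr g.1 (Equiv.refl _)

private theorem coeff_pull_monomial {k : ℕ} (n : ℕ) (g : Sym d k N) (s : Fin k × Fin N →₀ ℕ) :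
    g.pull n (MvPolynomial.monomial s 1) = MvPolynomial.monomial (s.equivMapDomain (cperm g))
      ((((Equiv.Perm.sign g.1 : ℤˣ) : ℤ) : ℂ) ^ n *
        ∏ J : Fin k × Fin N, ((g.2 J.1 J.2 : ℂˣ) : ℂ) ^ (s J + 1)) := by
  have h1 : MvPolynomial.aeval
      (fun J : Fin k × Fin N =>
        MvPolynomial.C ((g.2 J.1 J.2 : ℂˣ) : ℂ) * MvPolynomial.X (g.1 J.1, J.2))
      (MvPolynomial.monomial s (1 : ℂ)) =
      MvPolynomial.C (∏ J : Fin k × Fin N, ((g.2 J.1 J.2 : ℂˣ) : ℂ) ^ s J) *
        (MvPolynomial.monomial (s.equivMapDomain (cperm g)) (1 : ℂ)) := by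
    have e2 : ∏ J : Fin k × Fin N,
        (MvPolynomial.X (g.1 J.1, J.2) : MvPolynomial (Fin k × Fin N) ℂ) ^ s J =
        ∏ J, MvPolynomial.X J ^ (s.equivMapDomain (cperm g)) J := by
      rw [← Equiv.prod_comp (cperm g)
        (fun J => MvPolynomial.X J ^ (s.equivMapDomain (cperm g)) J)]
      refine Finset.prod_congr rfl fun J _ => ?_
      rw [Finsupp.equivMapDomain_apply, Equiv.symm_apply_apply]
      rfl
    rw [MvPolynomial.aeval_monomial, map_one, one_mul,
      Finsupp.prod_fintype _ _ (fun _ => pow_zero _),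
      MvPolynomial.monomial_eq, map_one, one_mul, Finsupp.prod_fintype _ _ (fun _ => pow_zero _),
      map_prod, ← e2, ← Finset.prod_mul_distrib]
    refine Finset.prod_congr rfl fun J _ => ?_
    rw [mul_pow, map_pow]
  unfold Sym.pull
  rw [h1, MvPolynomial.smul_eq_C_mul, ← mul_assoc, ← map_mul, MvPolynomial.C_mul_monomial, mul_one]
  congr 1
  rw [mul_assoc, ← Fintype.prod_prod_type' (fun b j => ((g.2 b j : ℂˣ) : ℂ)),
    ← Finset.prod_mul_distrib]
  congr 1
  refine Finset.prod_congr rfl fun J _ => ?_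
  rw [pow_succ']

private theorem coeff_psi_finsum [NeZero d] {I : Type} (s : Finset I) (f : I → ZMod d) :
    psi (∑ i ∈ s, f i) = ∏ i ∈ s, psi (f i) := by
  classical
  induction s using Finset.induction_on with
  | empty => rw [Finset.sum_empty, Finset.prod_empty, psi_zero]
  | insert a s ha ih => rw [Finset.sum_insert ha, Finset.prod_insert ha, ← ih, psi_add]

private theorem coeff_psi_pow [NeZero d] (n : ℕ) (k : ZMod d) :
    psi ((n : ZMod d) * k) = psi k ^ n := by
  induction n with
  | zero => rw [Nat.cast_zero, zero_mul, psi_zero, pow_zero]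
  | succ n ih => rw [Nat.cast_succ, add_mul, one_mul, psi_add, ih, pow_succ]

private theorem coeff_psi_sum [NeZero d] {k : ℕ} (b : Fin k × Fin N → ℕ)
    (z : Fin k × Fin N → ZMod d) :
    ∏ J, psi (z J) ^ b J = psi (∑ J, (b J : ZMod d) * z J) := by
  rw [coeff_psi_finsum]
  refine Finset.prod_congr rfl fun J _ => ?_
  rw [coeff_psi_pow]

/-- the coefficients of a combination which kills all forms -/
theorem coeff_forms [NeZero d] {k n r : ℕ} (γ : Sym d k N →₀ ℚ) (hγ : KillsForms n r γ)
    (z : Sym d k N → Fin k → Fin N → ZMod d)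
    (hz : ∀ g i j, ((g.2 i j : ℂˣ) : ℂ) = psi (z g i j))
    (b c : Fin k → Fin N → ℕ) (hb : ∀ i j, 0 < b i j) (hs : ∀ i, ∑ j, b i j = r * d)
    (hk : 0 < k) :
    ∑ g ∈ γ.support with (∀ i j, b (g.1.symm i) j = c i j),
      (((γ g * ((Equiv.Perm.sign g.1 : ℤˣ) : ℤ) ^ n : ℚ)) : ℂ) *
        psi (∑ i, ∑ j, (b i j : ZMod d) * z g i j) = 0 := by
  by_cases hc : ∀ i j, 0 < c i j
  · set s : Fin k × Fin N →₀ ℕ := Finsupp.equivFunOnFinite.symm fun J => b J.1 J.2 - 1 with hsd
    set t : Fin k × Fin N →₀ ℕ := Finsupp.equivFunOnFinite.symm fun J => c J.1 J.2 - 1 with htd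
    have hsJ : ∀ J, s J = b J.1 J.2 - 1 := fun J => rfl
    have htJ : ∀ J, t J = c J.1 J.2 - 1 := fun J => rfl
    have hsum : ∀ i, ∑ j, s (i, j) + N = r * d := by
      intro i
      rw [← hs i]
      have h1 : ∑ j : Fin N, (s (i, j) + 1) = ∑ j, b i j :=
        Finset.sum_congr rfl fun j _ => by
          rw [hsJ]
          have := hb i j
          simp only
          omega
      rw [← h1, Finset.sum_add_distrib]
      simp
    have he : r * d - N + N = r * d := by
      have := hsum ⟨0, hk⟩
      omega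
    have hP : MultiHom (r * d - N) (MvPolynomial.monomial s (1 : ℂ)) := by
      intro s' hs' i
      have h1 : s' = s := by
        have := MvPolynomial.support_monomial_subset hs'
        exact Finset.mem_singleton.1 this
      rw [h1]
      have := hsum i
      omega
    have h0 := congrArg (MvPolynomial.coeff t) (hγ (r * d - N) he _ hP)
    rw [Finsupp.sum, MvPolynomial.coeff_sum, MvPolynomial.coeff_zero] at h0
    rw [Finset.sum_filter]
    refine (Finset.sum_congr rfl fun g _ => ?_).trans h0
    rw [MvPolynomial.coeff_smul, coeff_pull_monomial, MvPolynomial.coeff_monomial]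
    have hap : ∀ i j, s.equivMapDomain (cperm g) (i, j) = b (g.1.symm i) j - 1 := by
      intro i j
      rw [Finsupp.equivMapDomain_apply, hsJ]
      rfl
    have hiff : (s.equivMapDomain (cperm g) = t) ↔ ∀ i j, b (g.1.symm i) j = c i j := by
      constructor
      · intro h i j
        have h2 := DFunLike.congr_fun h (i, j)
        rw [hap, htJ] at h2
        have h3 := hb (g.1.symm i) j
        have h4 := hc i j
        simp only at h2
        omega
      · intro h
        ext ⟨i, j⟩
        rw [hap, htJ, h i j]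
    by_cases hg : ∀ i j, b (g.1.symm i) j = c i j
    · rw [if_pos hg, if_pos (hiff.2 hg)]
      have h5 : ∏ J : Fin k × Fin N, ((g.2 J.1 J.2 : ℂˣ) : ℂ) ^ (s J + 1) =
          psi (∑ i, ∑ j, (b i j : ZMod d) * z g i j) := by
        rw [← Fintype.sum_prod_type' (fun i j => (b i j : ZMod d) * z g i j),
          ← coeff_psi_sum (fun J => b J.1 J.2) (fun J => z g J.1 J.2)]
        refine Finset.prod_congr rfl fun J _ => ?_
        rw [← hz, hsJ, Nat.sub_add_cancel (hb _ _)]
      rw [h5, smul_eq_mul]
      push_cast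
      ring
    · rw [if_neg hg, if_neg (fun h => hg (hiff.1 h)), smul_zero]
  · push Not at hc
    obtain ⟨i, j, hij⟩ := hc
    apply Finset.sum_eq_zero
    intro g hg
    have h1 := (Finset.mem_filter.1 hg).2 i j
    have h2 := hb (g.1.symm i) j
    omega

end Pool.Agent.GBB
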