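import Pool.Agent.GBB.Defs2
import Pool.Agent.DCIG.Final
import Pool.Agent.SavChen.Split

/-!
# Combinatorics of one character
-/

set_option autoImplicit false

noncomputable section

namespace Pool.Agent.GBB

variable {d N : ℕ}

private theorem comb1_typ [NeZero d] {r : ℕ} (hd : 1 < d) (hr : 1 ≤ r)
    (hN : (r - 1) * d + d / 2 + 2 ≤ N ∨ N = r * d) (a : Fin N → ZMod d)
    (hsum : ∑ j, a j = 0) (u : (ZMod d)ˣ) (b : Fin N → ℕ) (hb1 : ∀ j, 1 ≤ b j)
    (hb2 : ∑ j, b j = r * d) (hb3 : ∀ j, (b j : ZMod d) = u * a j) : Typ r a u⁻¹ b := by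
  obtain ⟨q, rfl⟩ : ∃ q, r = q + 1 := ⟨r - 1, by omega⟩
  have hlong : q * d + 1 < N := by
    rcases hN with h | h
    · have h1 : q + 1 - 1 = q := by omega
      rw [h1] at h
      omega
    · rw [h, Nat.succ_mul]
      omega
  have hab : ∀ j, a j = ((u⁻¹ : (ZMod d)ˣ) : ZMod d) * (b j : ZMod d) := by
    intro j
    rw [hb3, ← mul_assoc, Units.inv_mul, one_mul]
  have hlt : ∀ j, b j < d := by
    intro j
    by_contra hcon
    push Not at hcon
    have h1 : ∑ i ∈ Finset.univ.erase j, b i + b j = (q + 1) * d := by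
      rw [Finset.sum_erase_add _ _ (Finset.mem_univ j), hb2]
    have h2 : (Finset.univ.erase j : Finset (Fin N)).card • 1 ≤ ∑ i ∈ Finset.univ.erase j, b i :=
      Finset.card_nsmul_le_sum _ _ _ fun i _ => hb1 i
    rw [Finset.card_erase_of_mem (Finset.mem_univ j), Finset.card_univ, Fintype.card_fin,
      smul_eq_mul, mul_one] at h2
    rw [Nat.succ_mul] at h1
    omega
  have hne : ∀ j, a j ≠ 0 := by
    intro j h0
    have h1 : (b j : ZMod d) = 0 := by rw [hb3, h0, mul_zero]
    rw [ZMod.natCast_eq_zero_iff] at h1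
    have h2 := Nat.le_of_dvd (hb1 j) h1
    have h3 := hlt j
    omega
  refine ⟨hb1, hb2, hab, hne, ?_⟩
  obtain ⟨e, B, h1, h2, h3, h4⟩ := Pool.Agent.SavChen.splits_of_long (a := a) q
    (S := Finset.univ) hsum (by rw [Finset.card_univ, Fintype.card_fin]; omega)
  -- every block has sum at least `d`
  have h5 : ∀ i < e, d ≤ ∑ j with B j = i, b j := by
    intro i hi
    apply Nat.le_of_dvd
    · obtain ⟨j, hj, hji⟩ := h3 i hi
      exact Finset.sum_pos (fun j _ => hb1 j) ⟨j, Finset.mem_filter.2 ⟨hj, hji⟩⟩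
    · rw [← ZMod.natCast_eq_zero_iff]
      push_cast
      simp only [hb3]
      rw [← Finset.mul_sum, h4 i hi, mul_zero]
  have h6 : e * d ≤ (q + 1) * d := by
    rw [← hb2]
    have h7 : ∑ j, b j = ∑ i ∈ Finset.range e, ∑ j with B j = i, b j := by
      rw [← Finset.sum_fiberwise_of_maps_to (s := Finset.univ) (t := Finset.range e) (g := B)]
      intro j hj
      exact Finset.mem_range.2 (h2 j hj)
    rw [h7]
    have h8 : (Finset.range e).card • d ≤ ∑ i ∈ Finset.range e, ∑ j with B j = i, b j :=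
      Finset.card_nsmul_le_sum _ _ _ fun i hi => h5 i (Finset.mem_range.1 hi)
    rw [Finset.card_range, smul_eq_mul] at h8
    exact h8
  have h7 : e = q + 1 := le_antisymm (Nat.le_of_mul_le_mul_right h6 (by omega)) h1
  subst h7
  refine ⟨fun j => ⟨B j, h2 j (Finset.mem_univ j)⟩, ?_, ?_⟩
  · intro s
    obtain ⟨j, _, hj⟩ := h3 s.1 s.2
    exact ⟨j, Fin.ext hj⟩
  · intro s
    rw [← h4 s.1 s.2]
    apply Finset.sum_congr _ fun _ _ => rfl
    ext j
    simp [Fin.ext_iff]

theorem comb_one [NeZero d] {r : ℕ} (hd : 1 < d) (hr : 1 ≤ r)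
    (hN : (r - 1) * d + d / 2 + 2 ≤ N ∨ N = r * d) (a : Fin N → ZMod d) (h0 : a ≠ 0)
    (hsum : ∑ j, a j = 0) :
    (∃ (s : ℕ) (b : Fin N → Fin s), (∀ B, ∃ j, a j ≠ 0 ∧ b j = B) ∧
      (∀ B, ∑ j with b j = B, a j = 0) ∧
      (Finset.univ.filter fun j => a j ≠ 0).card + r < N + s) ∨
    ∃ (t : (ZMod d)ˣ) (b : Fin N → ℕ), Typ r a t b := by
  classical
  by_cases hex : ∃ (u : (ZMod d)ˣ) (b : Fin N → ℕ), (∀ j, 1 ≤ b j) ∧ ∑ j, b j = r * d ∧
      ∀ j, (b j : ZMod d) = u * a j
  · right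
    obtain ⟨u, b, hb1, hb2, hb3⟩ := hex
    exact ⟨u⁻¹, b, comb1_typ hd hr hN a hsum u b hb1 hb2 hb3⟩
  · left
    push Not at hex
    obtain ⟨j₀, hj₀⟩ : ∃ j, a j ≠ 0 := by
      by_contra hcon
      push Not at hcon
      exact h0 (funext hcon)
    obtain ⟨e, b, h1, h2, h3⟩ := Pool.Agent.DCIG.exists_blocks (J := Fin N) (m := d) (D := r)
      (a := a)
      (by
        rw [Fintype.card_fin]
        rcases hN with h | h
        · right
          exact h
        · rcases Nat.lt_or_ge d 3 with h3 | h3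
          · left
            left
            omega
          · right
            obtain ⟨q, rfl⟩ : ∃ q, r = q + 1 := ⟨r - 1, by omega⟩
            rw [h, Nat.succ_mul, Nat.add_sub_cancel]
            omega)
      (by
        intro u b hb1 hb2 hb3
        obtain ⟨j, hj⟩ := hex u b hb1 hb2
        exact hj (hb3 j))
      hsum (S := Finset.univ.filter fun j => a j ≠ 0) (by intro j; simp)
      ⟨j₀, by simp [hj₀]⟩
    refine ⟨e, b, ?_, ?_, ?_⟩
    · intro B
      obtain ⟨j, hj, hjB⟩ := h1 B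
      exact ⟨j, (Finset.mem_filter.1 hj).2, hjB⟩
    · intro B
      rw [← h2 B]
      symm
      apply Finset.sum_subset
      · intro j hj
        simp only [Finset.mem_filter, Finset.mem_univ, true_and] at hj ⊢
        exact hj.2
      · intro j hj hj'
        simp only [Finset.mem_filter, Finset.mem_univ, true_and, not_and] at hj hj'
        by_contra hne
        exact hj' hne hj
    · rw [Fintype.card_fin] at h3
      exact h3

end Pool.Agent.GBB
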