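import Pool.Agent.GBB.Defs2

/-!
# Two characters with different multipliers: partitions into many zero-sum blocks
-/

set_option autoImplicit false

namespace Pool.Agent.GBB

variable {d m N : ℕ}

private lemma pattern_subset {ι : Type} [DecidableEq ι] (f : ι → ℕ) :
    ∀ (n : ℕ) (s : Finset ι), s.card = n → (∀ j ∈ s, 0 < f j) → ∑ j ∈ s, f j < 2 * s.card →
      ∀ x ≤ ∑ j ∈ s, f j, ∃ A ⊆ s, ∑ j ∈ A, f j = x := by
  intro n
  induction n with
  | zero =>
    intro s hs _ h x _
    rw [hs] at h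
    omega
  | succ n ih =>
    intro s hs hf h x hx
    by_cases hex : ∃ j ∈ s, 2 ≤ f j
    · obtain ⟨j, hj, hj2⟩ := hex
      have hsum : f j + ∑ i ∈ s.erase j, f i = ∑ i ∈ s, f i := Finset.add_sum_erase s f hj
      have hcard : (s.erase j).card = n := by rw [Finset.card_erase_of_mem hj, hs]; rfl
      have hle : (s.erase j).card ≤ ∑ i ∈ s.erase j, f i := by
        rw [Finset.card_eq_sum_ones]
        exact Finset.sum_le_sum fun i hi => hf i (Finset.mem_of_mem_erase hi)
      have hih := ih (s.erase j) hcard (fun i hi => hf i (Finset.mem_of_mem_erase hi))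
        (by omega)
      by_cases hx' : x ≤ ∑ i ∈ s.erase j, f i
      · obtain ⟨A, hA, hAx⟩ := hih x hx'
        exact ⟨A, hA.trans (Finset.erase_subset _ _), hAx⟩
      · obtain ⟨A, hA, hAx⟩ := hih (x - f j) (by omega)
        have hjA : j ∉ A := fun h => (Finset.mem_erase.mp (hA h)).1 rfl
        refine ⟨insert j A, ?_, ?_⟩
        · intro i hi
          rcases Finset.mem_insert.mp hi with rfl | hi
          · exact hj
          · exact Finset.mem_of_mem_erase (hA hi)
        · rw [Finset.sum_insert hjA, hAx]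
          omega
    · push Not at hex
      have h1 : ∀ j ∈ s, f j = 1 := fun j hj => by
        have := hex j hj
        have := hf j hj
        omega
      have hsum : ∑ j ∈ s, f j = s.card := by
        rw [Finset.sum_congr rfl h1, Finset.card_eq_sum_ones]
      rw [hsum] at hx
      obtain ⟨A, hA, hAc⟩ := Finset.exists_subset_card_eq hx
      refine ⟨A, hA, ?_⟩
      rw [Finset.sum_congr rfl fun j hj => h1 j (hA hj), ← Finset.card_eq_sum_ones, hAc]

private lemma pattern_part (T : Finset (Fin N)) (hT : d + 3 ≤ 2 * T.card) (b : Fin N → ℕ)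
    (hb : ∀ j, 0 < b j) (hs : ∑ j ∈ T, b j = d) (x : ℕ) (hx0 : 0 < x) (hx : x + 2 ≤ d) :
    ∃ β : Fin N → Fin 3, (∀ s, ∃ j ∈ T, β j = s) ∧ (∑ j ∈ T with β j = 0, b j = 1) ∧
      (∑ j ∈ T with β j = 1, b j = x) ∧ (∑ j ∈ T with β j = 2, b j = d - 1 - x) := by
  -- a term equal to one
  obtain ⟨j₀, hj₀T, hj₀⟩ : ∃ j ∈ T, b j = 1 := by
    by_contra hcon
    push Not at hcon
    have h1 : ∑ _j ∈ T, 2 ≤ ∑ j ∈ T, b j := Finset.sum_le_sum fun j hj => by
      have := hb j
      have := hcon j hj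
      omega
    rw [Finset.sum_const, smul_eq_mul, hs] at h1
    omega
  have herase : b j₀ + ∑ j ∈ T.erase j₀, b j = ∑ j ∈ T, b j := Finset.add_sum_erase T b hj₀T
  have hcard : (T.erase j₀).card = T.card - 1 := Finset.card_erase_of_mem hj₀T
  obtain ⟨A, hA, hAx⟩ := pattern_subset b (T.card - 1) (T.erase j₀) hcard
    (fun j _ => hb j) (by rw [hcard]; omega) x (by omega)
  have hj₀A : j₀ ∉ A := fun h => (Finset.mem_erase.mp (hA h)).1 rfl
  have hAT : A ⊆ T := hA.trans (Finset.erase_subset _ _)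
  let β : Fin N → Fin 3 := fun j => if j = j₀ then 0 else if j ∈ A then 1 else 2
  have f0 : (T.filter fun j => β j = 0) = {j₀} := by
    ext j
    simp only [β, Finset.mem_filter, Finset.mem_singleton]
    split_ifs with h1 h2
    · simp [h1, hj₀T]
    · simp [h1]
    · simp [h1]
  have f1 : (T.filter fun j => β j = 1) = A := by
    ext j
    simp only [β, Finset.mem_filter]
    split_ifs with h1 h2
    · simp [h1, hj₀A]
    · simp [h2, hAT h2]
    · simp [h2]
  have s0 : ∑ j ∈ T with β j = 0, b j = 1 := by rw [f0, Finset.sum_singleton, hj₀]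
  have s1 : ∑ j ∈ T with β j = 1, b j = x := by rw [f1, hAx]
  have htot : ∑ s : Fin 3, ∑ j ∈ T with β j = s, b j = ∑ j ∈ T, b j := by
    rw [Finset.sum_fiberwise]
  have s2 : ∑ j ∈ T with β j = 2, b j = d - 1 - x := by
    rw [Fin.sum_univ_three, s0, s1, hs] at htot
    omega
  refine ⟨β, ?_, s0, s1, s2⟩
  have hpos : ∀ s : Fin 3, 0 < ∑ j ∈ T with β j = s, b j := by
    intro s
    fin_cases s
    · show 0 < ∑ j ∈ T with β j = 0, b j
      rw [s0]; exact one_pos
    · show 0 < ∑ j ∈ T with β j = 1, b j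
      rw [s1]; exact hx0
    · show 0 < ∑ j ∈ T with β j = 2, b j
      rw [s2]; omega
  intro s
  by_contra hcon
  push Not at hcon
  have := hpos s
  rw [Finset.filter_false_of_mem fun j hj => hcon j hj, Finset.sum_empty] at this
  exact lt_irrefl _ this

private lemma pattern [NeZero d] (T T' : Finset (Fin N)) (hT : d + 3 ≤ 2 * T.card)
    (hT' : d + 3 ≤ 2 * T'.card) (t t' : (ZMod d)ˣ) (htt : t ≠ t')
    (b b' : Fin N → ℕ) (hb : ∀ j, 0 < b j) (hb' : ∀ j, 0 < b' j) (hs : ∑ j ∈ T, b j = d)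
    (hs' : ∑ j ∈ T', b' j = d) :
    ∃ β β' : Fin N → Fin 3, (∀ s, ∃ j ∈ T, β j = s) ∧ (∀ s, ∃ j ∈ T', β' j = s) ∧
      ∀ s, ∑ j ∈ T with β j = s, (t : ZMod d) * (b j : ZMod d) +
        ∑ j ∈ T' with β' j = s, (t' : ZMod d) * (b' j : ZMod d) = 0 := by
  have hd0 : 0 < d := Nat.pos_of_ne_zero (NeZero.ne d)
  have hd1 : d ≠ 1 := by
    rintro rfl
    exact htt (Subsingleton.elim _ _)
  have : Fact (1 < d) := ⟨by omega⟩
  have : Nontrivial (ZMod d) := inferInstance
  -- bounds for the representative of a unit different from `-1`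
  have key : ∀ u : (ZMod d)ˣ, u ≠ -1 → 0 < (u : ZMod d).val ∧ (u : ZMod d).val + 2 ≤ d := by
    intro u hu
    have h1 : (u : ZMod d).val < d := ZMod.val_lt _
    have h2 : (u : ZMod d).val ≠ 0 := fun h => u.ne_zero ((ZMod.val_eq_zero _).mp h)
    have h3 : (u : ZMod d).val ≠ d - 1 := by
      intro h
      apply hu
      apply Units.ext
      have h4 : (((u : ZMod d).val : ℕ) : ZMod d) = ((d - 1 : ℕ) : ZMod d) := by rw [h]
      rw [ZMod.natCast_zmod_val, Nat.cast_sub (by omega), ZMod.natCast_self, Nat.cast_one,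
        zero_sub] at h4
      rw [h4]
      rfl
    omega
  set u : (ZMod d)ˣ := -(t * t'⁻¹) with hu
  have hu1 : u ≠ -1 := by
    intro h
    rw [hu, neg_inj, mul_inv_eq_one] at h
    exact htt h
  have hu2 : u⁻¹ ≠ -1 := by
    intro h
    apply hu1
    rw [← inv_inv u, h]
    simp
  obtain ⟨hw0, hw⟩ := key u hu1
  obtain ⟨hq0, hq⟩ := key u⁻¹ hu2
  obtain ⟨β, hβs, hβ0, hβ1, hβ2⟩ := pattern_part T hT b hb hs _ hq0 hq
  obtain ⟨γ, hγs, hγ0, hγ1, hγ2⟩ := pattern_part T' hT' b' hb' hs' _ hw0 hw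
  have hfil : ∀ s : Fin 3, (T'.filter fun j => Equiv.swap (0 : Fin 3) 1 (γ j) = s) =
      T'.filter fun j => γ j = Equiv.swap (0 : Fin 3) 1 s := by
    intro s
    ext j
    simp only [Finset.mem_filter]
    rw [← Equiv.eq_symm_apply, Equiv.symm_swap]
  have hTt : ∀ (t : (ZMod d)ˣ) (b : Fin N → ℕ) (F : Finset (Fin N)) (c : ℕ),
      ∑ j ∈ F, b j = c →
      ∑ j ∈ F, (t : ZMod d) * (b j : ZMod d) = (t : ZMod d) * (c : ZMod d) := by
    intro t b F c h
    rw [← h, Nat.cast_sum, Finset.mul_sum]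
  have hsub : ∀ x : ℕ, x + 2 ≤ d → ((d - 1 - x : ℕ) : ZMod d) = -1 - (x : ZMod d) := by
    intro x hx
    rw [Nat.cast_sub (by omega), Nat.cast_sub (by omega), ZMod.natCast_self, Nat.cast_one]
    ring
  have e1 : (u : ZMod d) * (t' : ZMod d) = -(t : ZMod d) := by
    have : u * t' = -t := by rw [hu]; simp
    have h2 := congrArg (fun z : (ZMod d)ˣ => (z : ZMod d)) this
    simpa using h2
  have e2 : ((u⁻¹ : (ZMod d)ˣ) : ZMod d) * (t : ZMod d) = -(t' : ZMod d) := by
    have : u⁻¹ * t = -t' := by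
      rw [hu, neg_mul_eq_mul_neg t, mul_inv]
      rw [mul_comm t⁻¹, mul_assoc, inv_mul_cancel, mul_one]
      simp
    have h2 := congrArg (fun z : (ZMod d)ˣ => (z : ZMod d)) this
    simpa using h2
  refine ⟨β, fun j => Equiv.swap (0 : Fin 3) 1 (γ j), hβs, ?_, ?_⟩
  · intro s
    obtain ⟨j, hj, hjs⟩ := hγs (Equiv.swap (0 : Fin 3) 1 s)
    refine ⟨j, hj, ?_⟩
    show Equiv.swap (0 : Fin 3) 1 (γ j) = s
    rw [hjs, Equiv.swap_apply_self]
  · intro s
    rw [hfil s]
    fin_cases s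
    · show ∑ j ∈ T with β j = 0, _ + ∑ j ∈ T' with γ j = Equiv.swap (0 : Fin 3) 1 0, _ = 0
      rw [Equiv.swap_apply_left, hTt t b _ _ hβ0, hTt t' b' _ _ hγ1, ZMod.natCast_zmod_val,
        Nat.cast_one]
      linear_combination e1
    · show ∑ j ∈ T with β j = 1, _ + ∑ j ∈ T' with γ j = Equiv.swap (0 : Fin 3) 1 1, _ = 0
      rw [Equiv.swap_apply_right, hTt t b _ _ hβ1, hTt t' b' _ _ hγ0, ZMod.natCast_zmod_val,
        Nat.cast_one]
      linear_combination e2
    · show ∑ j ∈ T with β j = 2, _ + ∑ j ∈ T' with γ j = Equiv.swap (0 : Fin 3) 1 2, _ = 0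
      rw [Equiv.swap_apply_of_ne_of_ne (by decide) (by decide), hTt t b _ _ hβ2,
        hTt t' b' _ _ hγ2, hsub _ hq, hsub _ hw, ZMod.natCast_zmod_val, ZMod.natCast_zmod_val]
      linear_combination -e2 - e1

/-- one block: sum `d` and many elements -/
private lemma block [NeZero d] {r : ℕ}
    (hN : (r - 1) * d + d / 2 + 2 ≤ N) {a : Fin N → ZMod d} {t : (ZMod d)ˣ} {b : Fin N → ℕ}
    (hb : ∀ j, 0 < b j) (hs : ∑ j, b j = r * d) (ha : ∀ j, a j = (t : ZMod d) * (b j : ZMod d))
    {B : Fin N → Fin r} (hB : Function.Surjective B) (hz : ∀ s, ∑ j with B j = s, a j = 0)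
    (s₀ : Fin r) : ∑ j with B j = s₀, b j = d ∧
      d + 3 ≤ 2 * (Finset.univ.filter fun j => B j = s₀).card := by
  have hge : ∀ s, d ≤ ∑ j with B j = s, b j := by
    intro s
    have h1 : ((∑ j with B j = s, b j : ℕ) : ZMod d) = 0 := by
      have h2 := hz s
      rw [Finset.sum_congr rfl fun j _ => ha j, ← Finset.mul_sum, Units.mul_right_eq_zero] at h2
      rw [Nat.cast_sum]
      exact h2
    rw [ZMod.natCast_eq_zero_iff] at h1
    apply Nat.le_of_dvd _ h1
    obtain ⟨j, hj⟩ := hB s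
    exact Finset.sum_pos (fun i _ => hb i) ⟨j, by simp [hj]⟩
  have htot : ∑ s : Fin r, ∑ j with B j = s, b j = r * d := by
    rw [Finset.sum_fiberwise, hs]
  have heq : ∀ s, ∑ j with B j = s, b j = d := by
    have h1 : ∑ s : Fin r, d = ∑ s : Fin r, ∑ j with B j = s, b j := by
      rw [htot, Finset.sum_const, Finset.card_univ, Fintype.card_fin, smul_eq_mul]
    intro s
    exact ((Finset.sum_eq_sum_iff_of_le fun s _ => hge s).mp h1 s (Finset.mem_univ _)).symm
  have hcard : ∀ s, (Finset.univ.filter fun j => B j = s).card ≤ d := by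
    intro s
    rw [Finset.card_eq_sum_ones]
    exact (Finset.sum_le_sum fun i _ => hb i).trans (heq s).le
  refine ⟨heq s₀, ?_⟩
  have hN' : ∑ s : Fin r, (Finset.univ.filter fun j => B j = s).card = N := by
    rw [← Finset.card_eq_sum_card_fiberwise fun _ _ => Finset.mem_coe.mpr (Finset.mem_univ _)]
    rw [Finset.card_univ, Fintype.card_fin]
  rw [← Finset.add_sum_erase _ _ (Finset.mem_univ s₀)] at hN'
  have h2 : ∑ s ∈ Finset.univ.erase s₀, (Finset.univ.filter fun j => B j = s).card ≤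
      (r - 1) * d := by
    refine (Finset.sum_le_sum fun s _ => hcard s).trans ?_
    rw [Finset.sum_const, Finset.card_erase_of_mem (Finset.mem_univ _), Finset.card_univ,
      Fintype.card_fin, smul_eq_mul]
  omega

theorem comb_two [NeZero d] {r : ℕ} (hd : 1 < d) (hr : 1 ≤ r)
    (hN : (r - 1) * d + d / 2 + 2 ≤ N ∨ N = r * d) {a a' : Fin N → ZMod d}
    {t t' : (ZMod d)ˣ} {b b' : Fin N → ℕ} (h : Typ r a t b) (h' : Typ r a' t' b')
    (htt : t ≠ t') :
    ∃ β : Fin N ⊕ Fin N → Fin (2 * r + 1), Function.Surjective β ∧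
      (∀ B, ∑ q : Fin N ⊕ Fin N with β q = B, Sum.elim a a' q = 0) ∧
      ∃ i₁ i₂ i' : Fin N, i₁ ≠ i₂ ∧ β (Sum.inl i₂) = β (Sum.inr i') := by
  have hd3 : 3 ≤ d := by
    by_contra hlt
    have h2 : d = 2 := by omega
    subst h2
    exact htt (Subsingleton.elim _ _)
  have hN2 : (r - 1) * d + d / 2 + 2 ≤ N := by
    rcases hN with hN | hN
    · exact hN
    · obtain ⟨r', rfl⟩ : ∃ r', r = r' + 1 := ⟨r - 1, by omega⟩
      rw [hN, Nat.add_sub_cancel, Nat.add_mul, one_mul]
      omega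
  obtain ⟨hb, hs, ha, -, B, hB, hz⟩ := h
  obtain ⟨hb', hs', ha', -, B', hB', hz'⟩ := h'
  let s₀ : Fin r := ⟨0, hr⟩
  obtain ⟨h1, h2⟩ := block hN2 hb hs ha hB hz s₀
  obtain ⟨h1', h2'⟩ := block hN2 hb' hs' ha' hB' hz' s₀
  obtain ⟨β, β', hβ, hβ', hsum⟩ := pattern _ _ h2 h2' t t' htt b b' hb hb' h1 h1'
  let I : Type := {s : Fin r // s ≠ s₀}
  have hcard : Fintype.card (Fin 3 ⊕ (I ⊕ I)) = 2 * r + 1 := by
    simp only [Fintype.card_sum, Fintype.card_fin, I, Fintype.card_subtype_compl,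
      Fintype.card_unique]
    omega
  let e : Fin 3 ⊕ (I ⊕ I) ≃ Fin (2 * r + 1) := Fintype.equivFinOfCardEq hcard
  let g : Fin N ⊕ Fin N → Fin 3 ⊕ (I ⊕ I) := Sum.elim
    (fun j => if hj : B j = s₀ then Sum.inl (β j) else Sum.inr (Sum.inl ⟨B j, hj⟩))
    (fun j => if hj : B' j = s₀ then Sum.inl (β' j) else Sum.inr (Sum.inr ⟨B' j, hj⟩))
  have hg1 : ∀ j, B j = s₀ → g (Sum.inl j) = Sum.inl (β j) := fun j hj => by simp [g, hj]
  have hg2 : ∀ j (hj : B j ≠ s₀), g (Sum.inl j) = Sum.inr (Sum.inl ⟨B j, hj⟩) :=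
    fun j hj => by simp [g, hj]
  have hg1' : ∀ j, B' j = s₀ → g (Sum.inr j) = Sum.inl (β' j) := fun j hj => by simp [g, hj]
  have hg2' : ∀ j (hj : B' j ≠ s₀), g (Sum.inr j) = Sum.inr (Sum.inr ⟨B' j, hj⟩) :=
    fun j hj => by simp [g, hj]
  have hgs : Function.Surjective g := by
    rintro (s | ⟨s, hs⟩ | ⟨s, hs⟩)
    · obtain ⟨j, hj, hjs⟩ := hβ s
      refine ⟨Sum.inl j, ?_⟩
      rw [hg1 j (Finset.mem_filter.mp hj).2, hjs]
    · obtain ⟨j, hj⟩ := hB s
      refine ⟨Sum.inl j, ?_⟩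
      subst hj
      exact hg2 j hs
    · obtain ⟨j, hj⟩ := hB' s
      refine ⟨Sum.inr j, ?_⟩
      subst hj
      exact hg2' j hs
  have hgz : ∀ K, ∑ q : Fin N ⊕ Fin N with g q = K, Sum.elim a a' q = 0 := by
    intro K
    rw [Finset.sum_filter, Fintype.sum_sum_type]
    simp only [Sum.elim_inl, Sum.elim_inr]
    rw [← Finset.sum_filter, ← Finset.sum_filter]
    rcases K with s | ⟨s, hs⟩ | ⟨s, hs⟩
    · have f1 : (Finset.univ.filter fun j => g (Sum.inl j) = Sum.inl s) =
          (Finset.univ.filter fun j => B j = s₀).filter fun j => β j = s := by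
        ext j
        simp only [Finset.mem_filter, Finset.mem_univ, true_and]
        by_cases hj : B j = s₀
        · rw [hg1 j hj]
          simp [hj]
        · rw [hg2 j hj]
          simp [hj]
      have f2 : (Finset.univ.filter fun j => g (Sum.inr j) = Sum.inl s) =
          (Finset.univ.filter fun j => B' j = s₀).filter fun j => β' j = s := by
        ext j
        simp only [Finset.mem_filter, Finset.mem_univ, true_and]
        by_cases hj : B' j = s₀
        · rw [hg1' j hj]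
          simp [hj]
        · rw [hg2' j hj]
          simp [hj]
      rw [f1, f2, Finset.sum_congr rfl fun j _ => ha j, Finset.sum_congr rfl fun j _ => ha' j]
      exact hsum s
    · have f1 : (Finset.univ.filter fun j => g (Sum.inl j) = Sum.inr (Sum.inl ⟨s, hs⟩)) =
          Finset.univ.filter fun j => B j = s := by
        ext j
        simp only [Finset.mem_filter, Finset.mem_univ, true_and]
        by_cases hj : B j = s₀
        · rw [hg1 j hj, hj]
          simp [hs.symm]
        · rw [hg2 j hj]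
          simp only [Sum.inr.injEq, Sum.inl.injEq]
          exact Subtype.mk_eq_mk
      have f2 : (Finset.univ.filter fun j => g (Sum.inr j) = Sum.inr (Sum.inl ⟨s, hs⟩)) =
          ∅ := by
        ext j
        simp only [Finset.mem_filter, Finset.mem_univ, true_and]
        by_cases hj : B' j = s₀
        · rw [hg1' j hj]
          simp
        · rw [hg2' j hj]
          simp
      rw [f1, f2, hz s, Finset.sum_empty, add_zero]
    · have f1 : (Finset.univ.filter fun j => g (Sum.inl j) = Sum.inr (Sum.inr ⟨s, hs⟩)) =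
          ∅ := by
        ext j
        simp only [Finset.mem_filter, Finset.mem_univ, true_and]
        by_cases hj : B j = s₀
        · rw [hg1 j hj]
          simp
        · rw [hg2 j hj]
          simp
      have f2 : (Finset.univ.filter fun j => g (Sum.inr j) = Sum.inr (Sum.inr ⟨s, hs⟩)) =
          Finset.univ.filter fun j => B' j = s := by
        ext j
        simp only [Finset.mem_filter, Finset.mem_univ, true_and]
        by_cases hj : B' j = s₀
        · rw [hg1' j hj, hj]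
          simp [hs.symm]
        · rw [hg2' j hj]
          simp only [Sum.inr.injEq]
          exact Subtype.mk_eq_mk
      rw [f1, f2, hz' s, Finset.sum_empty, add_zero]
  refine ⟨fun q => e (g q), e.surjective.comp hgs, ?_, ?_⟩
  · intro K
    rw [← hgz (e.symm K)]
    apply Finset.sum_congr _ fun _ _ => rfl
    ext q
    simp only [Finset.mem_filter, Finset.mem_univ, true_and]
    exact (Equiv.eq_symm_apply e).symm
  · obtain ⟨i₂, hi₂, hi₂s⟩ := hβ 0
    obtain ⟨i', hi', hi's⟩ := hβ' 0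
    obtain ⟨i₁, hi₁, hi₁s⟩ := hβ 1
    refine ⟨i₁, i₂, i', ?_, ?_⟩
    · intro hcon
      rw [hcon, hi₂s] at hi₁s
      exact absurd hi₁s (by decide)
    · show e (g (Sum.inl i₂)) = e (g (Sum.inr i'))
      rw [hg1 i₂ (Finset.mem_filter.mp hi₂).2, hg1' i' (Finset.mem_filter.mp hi').2, hi₂s, hi's]

end Pool.Agent.GBB
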