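import Pool.Agent.VCI.Core

/-!
# The main relation, for an arbitrary character without trivial components

The `n + 1` points are moved in a pencil of divisors on the line, which meets the branch points of
one block at the same parameter.
-/

open Polynomial
open scoped LinearAlgebra.Projectivization

namespace Pool.Agent.GBB

open Pool.Agent.ZCyc Pool.Agent.DCI57 Pool.Agent.ZVois Pool.Agent.VCI

universe u w

section Core

variable {k : Type u} [Field k] [IsAlgClosed k] [CharZero k] {J : Type} [Fintype J]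
  [DecidableEq J] {m : ℕ} [NeZero m] {R : Type w} [Field R] [CharZero R]

theorem core2 {ζ : kˣ} (hζ : IsPrimitiveRoot (ζ : k) m) (hm : 1 < m) {n r : ℕ} (hr : 1 ≤ r)
    {l e : J → k} (he : Function.Injective e) (hl : ∀ j, l j ≠ 0)
    (hJn : Fintype.card J = n + r + 1) {a : J → ℕ} (ha : ∀ j, ¬ m ∣ a j) {b : J → Fin r}
    (hb : Function.Surjective b) (hsum : ∀ B, m ∣ ∑ j with b j = B, a j) {ω : R}
    (hω : IsPrimitiveRoot ω m) {ψ : AddChar (J → ZMod m) R}
    (hψ : ∀ t, ψ t = ω ^ (∑ j, (a j : ZMod m) * t j).val)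
    {α : Fin n ⊕ Fin n → k} {β : Fin n ⊕ Fin n → J → k} {η : J → k}
    (hβ : ∀ c j, β c j ^ m = e j - α c) (hβ0 : ∀ c j, β c j ≠ 0)
    (hη : ∀ j, η j ^ m = wt l e j) (h0 : ∀ γ : Fin n → Fin n ⊕ Fin n, vec η β γ ≠ 0)
    (x : Fin n) :
    ∑ τ : Equiv.Perm (Fin (n + 1)), op2 ζ ψ ψ (Finsupp.single
      (Projectivization.mk k (vec η β fun i => τ.viaEmbedding (emb n x) (Sum.inl i)) (h0 _),
       Projectivization.mk k (vec η β fun i => τ.viaEmbedding (emb n x) (Sum.inr i)) (h0 _)) 1) ∈
      ratEquiv2 R (Diag m (osc l e r)) := by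
  classical
  have hm0 : 0 < m := by omega
  have : Infinite k := IsAlgClosed.instInfinite
  have hζ1 : ζ ^ m = 1 := by
    apply Units.ext
    push_cast
    exact hζ.pow_eq_one
  have hζ0 : (ζ : k) ≠ 0 := ζ.ne_zero
  have hη0 : ∀ j, η j ≠ 0 := by
    intro j h
    have h1 := hη j
    rw [h, zero_pow hm0.ne'] at h1
    have h2 : wt l e j ≠ 0 := by
      unfold wt
      refine inv_ne_zero (mul_ne_zero (hl j) (Finset.prod_ne_zero_iff.2 fun i hi => ?_))
      rw [sub_ne_zero]
      intro h3
      exact (Finset.mem_erase.1 hi).1 (he h3).symm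
    exact h2 h1.symm
  obtain ⟨j₀⟩ : Nonempty J := by
    rw [← Fintype.card_pos_iff]
    omega
  set b' : J → Option (Fin r) := fun j => if j = j₀ then none else some (b j) with hb'def
  have hb' : Function.Surjective b' := by
    rintro (_ | B)
    · exact ⟨j₀, by simp [hb'def]⟩
    · by_contra hcon
      push Not at hcon
      have h1 : ∀ j, b j = B → j = j₀ := by
        intro j hj
        by_contra hne
        exact hcon j (by simp [hb'def, hne, hj])
      obtain ⟨j₁, hj₁⟩ := hb B
      have h2 : (Finset.univ.filter fun j => b j = B) = {j₁} := by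
        ext j
        simp only [Finset.mem_filter, Finset.mem_univ, true_and, Finset.mem_singleton]
        constructor
        · intro hj
          rw [h1 j hj, h1 j₁ hj₁]
        · rintro rfl
          exact hj₁
      have h3 := hsum B
      rw [h2, Finset.sum_singleton] at h3
      exact ha j₁ h3
  -- the pencil
  set q : k[X] := ∏ i, (X - C (α (emb n x i))) with hq
  have hqm : q.Monic := monic_prod_of_monic _ _ fun i _ => monic_X_sub_C _
  have hqn : q.natDegree = n + 1 := by
    rw [hq, natDegree_prod_of_monic _ _ fun i _ => monic_X_sub_C _]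
    simp
  obtain ⟨p, γ, hpd, hγ0, hpe⟩ := exists_pencil he hb' hqm (by
    rw [hqn, Fintype.card_option, Fintype.card_fin]
    omega)
  obtain ⟨T, S, s₀, s₁, B, hS, hs₀, hs₁⟩ := exists_base (b := b) hm0 hsum j₀ hγ0
  obtain ⟨F, _, _, _, _, _, _, X', Z, hX', hZ⟩ := exists_cover_roots hm0 e hqm hqn hpd T
  have hRC : ∀ c : k, algebraMap (RatFunc k) F (RatFunc.C c) = algebraMap k F c := by
    intro c
    rw [← RatFunc.algebraMap_eq_C, ← IsScalarTower.algebraMap_apply]
  -- all the points
  set ξ : Fin n ⊕ Fin n → F := Function.extend (emb n x) X' (fun c => algebraMap k F (α c)) with hξ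
  set W : Fin n ⊕ Fin n → J → F :=
    Function.extend (emb n x) Z (fun c j => algebraMap k F (β c j)) with hW
  have hinj := (emb n x).injective
  have hξe : ∀ i, ξ (emb n x i) = X' i := fun i => hinj.extend_apply _ _ i
  have hWe : ∀ i, W (emb n x i) = Z i := fun i => hinj.extend_apply _ _ i
  have hξn : ∀ c, (¬ ∃ i, emb n x i = c) → ξ c = algebraMap k F (α c) := fun c hc =>
    Function.extend_apply' _ _ _ hc
  have hWn : ∀ c, (¬ ∃ i, emb n x i = c) → W c = fun j => algebraMap k F (β c j) := fun c hc =>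
    Function.extend_apply' _ _ _ hc
  have hWm : ∀ c j, W c j ^ m = algebraMap k F (e j) - ξ c := by
    intro c j
    by_cases hc : ∃ i, emb n x i = c
    · obtain ⟨i, rfl⟩ := hc
      rw [hWe, hξe, hZ]
    · rw [hWn c hc, hξn c hc, ← map_pow, hβ, map_sub]
  -- the morphisms
  set cor : (Fin n → Fin n ⊕ Fin n) → J → F :=
    fun g j => algebraMap k F (η j) * ∏ i, W (g i) j with hcor
  have hcorm : ∀ g j, cor g j ^ m =
      algebraMap k F (wt l e j) * ∏ i, (algebraMap k F (e j) - ξ (g i)) := by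
    intro g j
    rw [hcor]
    simp only
    rw [mul_pow, ← map_pow, hη, ← Finset.prod_pow]
    congr 1
    exact Finset.prod_congr rfl fun i _ => hWm _ _
  have hcorsum : ∀ g i, ∑ j, algebraMap k F (osc l e r i j) * cor g j ^ m = 0 := by
    intro g i
    have h1 := osc_sum he hl hJn (F := F) (Q := ∏ i, (X - C (ξ (g i)))) (by
      rw [natDegree_prod_of_monic _ _ fun i _ => monic_X_sub_C _]
      simp) i
    rw [← h1]
    refine Finset.sum_congr rfl fun j _ => ?_
    rw [hcorm, eval_prod]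
    simp
  have hXt : Transcendental k (algebraMap (RatFunc k) F RatFunc.X) := by
    rw [transcendental_algebraMap_iff (algebraMap (RatFunc k) F).injective]
    exact RatFunc.transcendental_X
  obtain ⟨v, hv⟩ := exists_place hXt s₀
  obtain ⟨w, hw⟩ := exists_place hXt s₁
  -- the product of all the functions
  have hev : ∀ c : k, ∏ i, (algebraMap k F c - X' i) = algebraMap k F (q.eval c) +
      algebraMap (RatFunc k) F T * algebraMap k F (p.eval c) := by
    intro c
    have h1 := congrArg (Polynomial.eval (algebraMap k F c)) hX'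
    rw [eval_add, eval_mul, eval_C, eval_map_algebraMap, eval_map_algebraMap, eval_prod] at h1
    simp only [eval_sub, eval_X, eval_C] at h1
    rw [← h1, aeval_algebraMap_apply, aeval_algebraMap_apply]
    rfl
  have hqe : ∀ j, q.eval (e j) = ∏ i, β (emb n x i) j ^ m := by
    intro j
    rw [hq, eval_prod]
    refine Finset.prod_congr rfl fun i _ => ?_
    rw [hβ]
    simp
  have hev' : ∀ j, ∏ i, (algebraMap k F (e j) - X' i) =
      (∏ i, algebraMap k F (β (emb n x i) j ^ m)) *
        algebraMap (RatFunc k) F (1 + T * RatFunc.C (γ (b' j))) := by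
    intro j
    rw [hev, hpe, ← map_prod, ← hqe, map_mul, map_add, map_one, map_mul, hRC]
    ring
  have hcol : ∀ j, ∏ c, W c j ^ m = (∏ c, algebraMap k F (β c j) ^ m) *
      algebraMap (RatFunc k) F (1 + T * RatFunc.C (γ (b' j))) := by
    intro j
    rw [prod_split x, prod_split x (fun c => algebraMap k F (β c j) ^ m)]
    have h1 : ∏ i, W (emb n x i) j ^ m = ∏ i, (algebraMap k F (e j) - X' i) :=
      Finset.prod_congr rfl fun i _ => by rw [hWm, hξe]
    have h2 : ∏ c ∈ (Finset.univ.map (emb n x))ᶜ, W c j ^ m =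
        ∏ c ∈ (Finset.univ.map (emb n x))ᶜ, algebraMap k F (β c j) ^ m := by
      refine Finset.prod_congr rfl fun c hc => ?_
      rw [hWn c]
      rintro ⟨i, hi⟩
      rw [Finset.mem_compl, Finset.mem_map] at hc
      exact hc ⟨i, Finset.mem_univ _, hi⟩
    have h3 : ∏ i, algebraMap k F (β (emb n x i) j ^ m) =
        ∏ i, algebraMap k F (β (emb n x i) j) ^ m :=
      Finset.prod_congr rfl fun i _ => map_pow _ _ _
    rw [h1, h2, hev', h3]
    ring
  have hprod : (∏ j, (∏ c, W c j) ^ a j) ^ m =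
      (algebraMap k F (∏ j, (∏ c, β c j) ^ a j) * algebraMap (RatFunc k) F S) ^ m := by
    rw [mul_pow, ← map_pow (algebraMap (RatFunc k) F) S, hS, map_prod (algebraMap (RatFunc k) F),
      map_prod, ← Finset.prod_pow, ← Finset.prod_pow, ← Finset.prod_mul_distrib]
    refine Finset.prod_congr rfl fun j _ => ?_
    rw [map_pow, map_pow, pow_right_comm, ← Finset.prod_pow, hcol, mul_pow, map_prod,
      pow_right_comm _ (a j) m, Finset.prod_pow]
  have hζF : IsPrimitiveRoot (algebraMap k F ζ) m :=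
    hζ.map_of_injective (algebraMap k F).injective
  have hS0 : algebraMap (RatFunc k) F S ≠ 0 := by
    intro h0
    have h1 := (hs₀ v hv).2
    rw [h0] at h1
    have h2 : v.At 0 (0 : k) := by simpa using Place.at_const (v := v) (0 : k)
    exact zero_ne_one (h2.unique h1)
  have hβp : (∏ j, (∏ c, β c j) ^ a j) ≠ 0 :=
    Finset.prod_ne_zero_iff.2 fun j _ => pow_ne_zero _
      (Finset.prod_ne_zero_iff.2 fun c _ => hβ0 c j)
  have hne : algebraMap k F (∏ j, (∏ c, β c j) ^ a j) * algebraMap (RatFunc k) F S ≠ 0 := by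
    refine mul_ne_zero ?_ hS0
    rw [_root_.map_ne_zero]
    exact hβp
  obtain ⟨κ, hκ⟩ : ∃ κ : ℕ, ∏ j, (∏ c, W c j) ^ a j =
      algebraMap k F ((ζ : k) ^ κ * ∏ j, (∏ c, β c j) ^ a j) * algebraMap (RatFunc k) F S := by
    have h1 : ((∏ j, (∏ c, W c j) ^ a j) /
        (algebraMap k F (∏ j, (∏ c, β c j) ^ a j) * algebraMap (RatFunc k) F S)) ^ m = 1 := by
      rw [div_pow, hprod, div_self (pow_ne_zero _ hne)]
    obtain ⟨κ, _, hκ⟩ := hζF.eq_pow_of_pow_eq_one h1
    refine ⟨κ, ?_⟩
    rw [eq_div_iff hne] at hκ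
    rw [← hκ, map_mul, map_pow]
    ring
  -- the values above `s₀`
  have hpd' : p.degree < ((n + 1 : ℕ) : WithBot ℕ) := by
    rwa [degree_eq_natDegree hqm.ne_zero, hqn] at hpd
  have val₀ : ∀ u : Place k F, u.At (algebraMap (RatFunc k) F RatFunc.X) s₀ →
      ∃ (ρ : Equiv.Perm (Fin (n + 1))) (s : Fin n ⊕ Fin n → J → ℕ),
        ((∑ j, a j * ∑ c, s c j : ℕ) : ZMod m) = κ ∧
        ∀ g j, u.At (cor g j) ((((ζ ^ (∑ i, (s (g i) j : ZMod m)).val : kˣ)) : k) *
          vec η β (fun i => ρ.viaEmbedding (emb n x) (g i)) j) := by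
    intro u hu
    obtain ⟨hT0, hS1⟩ := hs₀ u hu
    obtain ⟨ρ, hρ⟩ := exists_perm (u := u) hX' hpd' hT0
    have h1 : ∀ c j, ∃ s : ℕ, u.At (W c j)
        ((ζ : k) ^ s * β (ρ.viaEmbedding (emb n x) c) j) := by
      intro c j
      have h2 : u.At (W c j ^ m) (β (ρ.viaEmbedding (emb n x) c) j ^ m) := by
        rw [hWm, hβ]
        refine (Place.at_const _).sub ?_
        by_cases hc : ∃ i, emb n x i = c
        · obtain ⟨i, rfl⟩ := hc
          rw [hξe, Equiv.Perm.viaEmbedding_apply]
          exact hρ i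
        · rw [hξn c hc, Equiv.Perm.viaEmbedding_apply_of_notMem]
          · exact Place.at_const _
          · rintro ⟨i, hi⟩
            exact hc ⟨i, hi⟩
      obtain ⟨s, _, hs⟩ := Place.exists_root_at hζ hm0 h2
      exact ⟨s, hs⟩
    choose s hs using h1
    refine ⟨ρ, s, ?_, ?_⟩
    · have h3 : u.At (∏ j, (∏ c, W c j) ^ a j)
          (∏ j, (∏ c, ((ζ : k) ^ s c j * β (ρ.viaEmbedding (emb n x) c) j)) ^ a j) :=
        Place.At.prod fun j _ => (Place.At.prod fun c _ => hs c j).pow _
      have h4 : u.At (∏ j, (∏ c, W c j) ^ a j) ((ζ : k) ^ κ * (∏ j, (∏ c, β c j) ^ a j) * 1) := by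
        rw [hκ]
        exact (Place.at_const _).mul hS1
      have h5 := h3.unique h4
      have h6 : (∏ j, (∏ c, ((ζ : k) ^ s c j * β (ρ.viaEmbedding (emb n x) c) j)) ^ a j) =
          (ζ : k) ^ (∑ j, a j * ∑ c, s c j) * ∏ j, (∏ c, β c j) ^ a j := by
        rw [← Finset.prod_pow_eq_pow_sum, ← Finset.prod_mul_distrib]
        refine Finset.prod_congr rfl fun j _ => ?_
        rw [mul_comm (a j), pow_mul, ← mul_pow]
        congr 1
        rw [← Finset.prod_pow_eq_pow_sum, Finset.prod_mul_distrib]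
        congr 1
        exact Equiv.prod_comp (ρ.viaEmbedding (emb n x)) (fun c => β c j)
      rw [h6, mul_one] at h5
      have h7 := mul_right_cancel₀ hβp h5
      rw [ZMod.natCast_eq_natCast_iff]
      have h7' : ζ ^ (∑ j, a j * ∑ c, s c j) = ζ ^ κ := by
        apply Units.ext
        push_cast
        exact h7
      have h8 := pow_eq_pow_iff_modEq.1 h7'
      rwa [← (IsPrimitiveRoot.coe_units_iff.1 hζ).eq_orderOf] at h8
    · intro g j
      have h3 : u.At (cor g j) (η j * ∏ i, ((ζ : k) ^ s (g i) j *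
          β (ρ.viaEmbedding (emb n x) (g i)) j)) :=
        (Place.at_const _).mul (Place.At.prod fun i _ => hs (g i) j)
      have h4 : (((ζ ^ (∑ i, (s (g i) j : ZMod m)).val : kˣ)) : k) *
          vec η β (fun i => ρ.viaEmbedding (emb n x) (g i)) j =
          η j * ∏ i, ((ζ : k) ^ s (g i) j * β (ρ.viaEmbedding (emb n x) (g i)) j) := by
        have h5 : (((ζ ^ (∑ i, (s (g i) j : ZMod m)).val : kˣ)) : k) =
            (ζ : k) ^ (∑ i, s (g i) j) := by
          rw [← Nat.cast_sum, ZMod.val_natCast, ← pow_eq_pow_mod _ hζ1]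
          push_cast
          rfl
        rw [h5, Finset.prod_mul_distrib, Finset.prod_pow_eq_pow_sum]
        unfold vec
        ring
      rw [h4]
      exact h3
  -- the morphisms
  have hX0 : ∀ g, ∃ j, cor g j ≠ 0 := by
    intro g
    obtain ⟨ρ, s, -, h1⟩ := val₀ v hv
    obtain ⟨j, hj⟩ : ∃ j, vec η β (fun i => ρ.viaEmbedding (emb n x) (g i)) j ≠ 0 := by
      by_contra hcon
      push Not at hcon
      exact h0 _ (funext hcon)
    refine ⟨j, fun h2 => ?_⟩
    have h3 := h1 g j
    rw [h2] at h3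
    have h4 := h3.unique (by simpa using Place.at_const (v := v) (0 : k))
    exact mul_ne_zero (Units.ne_zero _) hj h4
  have hval : ∀ g, ∀ v : Place k F, ∃ p, IsValue v (cor g) p := fun g v => exists_value v (hX0 g)
  choose φ hφ using hval
  have hφX : ∀ g v, φ g v ∈ Diag m (osc l e r) := fun g v => (hφ g v).mem_Diag (hcorsum g)
  have hact : ∀ g p, p ∈ Diag m (osc l e r) → act ζ g p ∈ Diag m (osc l e r) :=
    fun g p hp => act_mem hζ1 hp g
  -- the two index functions
  set gl : Equiv.Perm (Fin (n + 1)) → Fin n → Fin n ⊕ Fin n :=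
    fun τ i => τ.viaEmbedding (emb n x) (Sum.inl i) with hgl
  set gr : Equiv.Perm (Fin (n + 1)) → Fin n → Fin n ⊕ Fin n :=
    fun τ i => τ.viaEmbedding (emb n x) (Sum.inr i) with hgr
  have hmulvia : ∀ (ρ τ : Equiv.Perm (Fin (n + 1))) c, ρ.viaEmbedding (emb n x)
      (τ.viaEmbedding (emb n x) c) = (ρ * τ).viaEmbedding (emb n x) c := by
    intro ρ τ c
    have h1 := map_mul (Equiv.Perm.viaEmbeddingHom (emb n x)) ρ τ
    simp only [Equiv.Perm.viaEmbeddingHom_apply] at h1
    rw [h1]
    rfl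
  set c₀ : R := ω ^ (κ : ZMod m).val with hc₀
  have hc₀0 : c₀ ≠ 0 := pow_ne_zero _ (hω.ne_zero hm0.ne')
  have key₀ : ∀ u : Place k F, u.At (algebraMap (RatFunc k) F RatFunc.X) s₀ →
      c₀ • ∑ τ, op2 ζ ψ ψ (Finsupp.single (φ (gl τ) u, φ (gr τ) u) 1) =
        ∑ τ, pt2 ζ ψ h0 (gl τ, gr τ) := by
    intro u' hu
    obtain ⟨ρ, s, hs, hval⟩ := val₀ u' hu
    have h1 : ∀ g, φ g u' = act ζ (fun j => ∑ i, (s (g i) j : ZMod m))
        (Projectivization.mk k (vec η β fun i => ρ.viaEmbedding (emb n x) (g i)) (h0 _)) := by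
      intro g
      have h2 : (fun j => (((ζ ^ (∑ i, (s (g i) j : ZMod m)).val : kˣ)) : k) *
          vec η β (fun i => ρ.viaEmbedding (emb n x) (g i)) j) ≠ 0 := by
        intro h3
        apply h0 (fun i => ρ.viaEmbedding (emb n x) (g i))
        funext j
        exact (Units.mul_right_eq_zero _).1 (congrFun h3 j)
      rw [act_mk _ _ _ h2]
      exact (hφ g u').unique (isValue_mk h2 (hval g))
    rw [Finset.smul_sum, ← Equiv.sum_comp (Equiv.mulLeft ρ) (fun τ => pt2 ζ ψ h0 (gl τ, gr τ))]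
    refine Finset.sum_congr rfl fun τ _ => ?_
    rw [h1, h1]
    have h3 := op2_act hζ1 ψ ψ (fun j => ∑ i, (s (gl τ i) j : ZMod m))
      (fun j => ∑ i, (s (gr τ i) j : ZMod m))
      (Projectivization.mk k (vec η β fun i => ρ.viaEmbedding (emb n x) (gl τ i)) (h0 _))
      (Projectivization.mk k (vec η β fun i => ρ.viaEmbedding (emb n x) (gr τ i)) (h0 _))
    have h4 : ψ (fun j => ∑ i, (s (gl τ i) j : ZMod m)) *
        ψ (fun j => ∑ i, (s (gr τ i) j : ZMod m)) = c₀ := by
      rw [← AddChar.map_add_eq_mul, hψ, hc₀, ← hs]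
      congr 2
      push_cast
      refine Finset.sum_congr rfl fun j _ => ?_
      congr 1
      rw [← Equiv.sum_comp (τ.viaEmbedding (emb n x)) (fun c => (s c j : ZMod m)),
        Fintype.sum_sum_type]
      rfl
    rw [h4] at h3
    rw [h3]
    simp only [Equiv.coe_mulLeft, pt2, hgl, hgr, hmulvia]
  -- the values above `s₁`
  have hψ1 : ∀ j, ψ (Pi.single j 1) ≠ 1 := by
    intro j h1
    rw [hψ, Fintype.sum_eq_single j (fun i hi => by
      rw [Pi.single_eq_of_ne hi, mul_zero]), Pi.single_eq_same, mul_one] at h1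
    have h2 := (hω.pow_eq_one_iff_dvd _).1 h1
    have h3 := Nat.eq_zero_of_dvd_of_lt h2 (ZMod.val_lt _)
    exact ha j ((ZMod.natCast_eq_zero_iff _ _).1 ((ZMod.val_eq_zero _).1 h3))
  have key₁ : ∀ u : Place k F, u.At (algebraMap (RatFunc k) F RatFunc.X) s₁ →
      ∀ τ, op2 ζ ψ ψ (Finsupp.single (φ (gl τ) u, φ (gr τ) u) 1) = 0 := by
    intro u' hu τ
    have h1 := hs₁ u' hu
    have hγB : γ B ≠ 0 := by
      intro h2
      rw [h2, map_zero, mul_zero, add_zero, map_one, ← Place.at_zero_iff] at h1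
      exact zero_ne_one (h1.unique (by simpa using Place.at_const (v := u') (1 : k)))
    have hT : u'.At (algebraMap (RatFunc k) F T) (-(γ B)⁻¹) := by
      rw [map_add, map_one, map_mul, hRC, ← Place.at_zero_iff] at h1
      have h2 := (h1.sub (Place.at_const (v := u') (1 : k))).mul
        (Place.at_const (v := u') (γ B)⁻¹)
      have h3 : (1 + algebraMap (RatFunc k) F T * algebraMap k F (γ B) - algebraMap k F 1) *
          algebraMap k F (γ B)⁻¹ = algebraMap (RatFunc k) F T := by
        have h4 : algebraMap k F (γ B) ≠ 0 := by simpa using hγB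
        rw [map_one, map_inv₀]
        field_simp
        ring
      rw [h3] at h2
      simpa using h2
    -- the roots at this point
    obtain ⟨a, ha⟩ : ∃ a : Fin (n + 1) → k, q + C (-(γ B)⁻¹) * p = ∏ i, (X - C (a i)) := by
      have h2 : (C (-(γ B)⁻¹) * p).degree < q.degree :=
        ((degree_mul_le _ _).trans (by
          calc (C (-(γ B)⁻¹)).degree + p.degree ≤ 0 + p.degree := by gcongr; exact degree_C_le
            _ = p.degree := zero_add _)).trans_lt hpd
      refine exists_roots (hqm.add_of_left h2) ?_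
      rw [natDegree_add_eq_left_of_degree_lt h2, hqn]
    obtain ⟨ρ, hρ⟩ := exists_perm (u := u') (α := a) (h := p)
      (t := algebraMap (RatFunc k) F T - algebraMap k F (-(γ B)⁻¹)) (x := X') (by
        rw [← ha, ← hX', Polynomial.map_add, Polynomial.map_mul, map_C, map_sub]
        ring) hpd' (Place.at_zero_iff.2 hT)
    set ν : Fin n ⊕ Fin n → k := Function.extend (emb n x) (a ∘ ρ) α with hν
    have hνe : ∀ i, ν (emb n x i) = a (ρ i) := fun i => hinj.extend_apply _ _ i
    have hνn : ∀ c, (¬ ∃ i, emb n x i = c) → ν c = α c := fun c hc =>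
      Function.extend_apply' _ _ _ hc
    have hWν : ∀ c j, u'.At (W c j ^ m) (e j - ν c) := by
      intro c j
      rw [hWm]
      refine (Place.at_const _).sub ?_
      by_cases hc : ∃ i, emb n x i = c
      · obtain ⟨i, rfl⟩ := hc
        rw [hξe, hνe]
        exact hρ i
      · rw [hξn c hc, hνn c hc]
        exact Place.at_const _
    have hcν : ∀ g j, u'.At (cor g j ^ m) (wt l e j * ∏ i, (e j - ν (g i))) := by
      intro g j
      have h2 : cor g j ^ m = algebraMap k F (wt l e j) * ∏ i, W (g i) j ^ m := by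
        rw [hcor]
        simp only
        rw [mul_pow, ← map_pow, hη, Finset.prod_pow]
      rw [h2]
      exact (Place.at_const _).mul (Place.At.prod fun i _ => hWν _ _)
    -- a coordinate which vanishes
    obtain ⟨j₁, hj₁⟩ := hb' B
    obtain ⟨i₁, hi₁⟩ : ∃ i, e j₁ = a (ρ i) := by
      have h2 : u'.Vanishes (∏ i, (algebraMap k F (e j₁) - X' i)) := by
        rw [hev' j₁, hj₁]
        refine Place.Vanishes.mul' u' h1 ?_
        exact prod_mem fun l _ => u'.const_mem _
      obtain ⟨i, _, hi⟩ := u'.vanishes_prod h2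
      refine ⟨i, ?_⟩
      have h3 := (Place.at_const (v := u') (e j₁)).sub (hρ i)
      exact sub_eq_zero.1 (h3.unique (Place.at_zero_iff.2 hi))
    -- a coordinate which does not vanish
    obtain ⟨j₂, hj₂⟩ : ∃ j₂, ∀ i, e j₂ ≠ a i := by
      by_contra hcon
      push Not at hcon
      choose i hi using hcon
      have h2 : Function.Injective i := by
        intro j j' h
        apply he
        rw [hi j, hi j', h]
      have h3 := Fintype.card_le_of_injective i h2
      rw [hJn, Fintype.card_fin] at h3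
      omega
    have hj₂' : ∀ c, e j₂ - ν c ≠ 0 := by
      intro c
      by_cases hc : ∃ i, emb n x i = c
      · obtain ⟨i, rfl⟩ := hc
        rw [hνe, sub_ne_zero]
        exact hj₂ _
      · rw [hνn c hc, ← hβ]
        exact pow_ne_zero _ (hβ0 c j₂)
    have hwt : wt l e j₂ ≠ 0 := by
      rw [← hη]
      exact pow_ne_zero _ (hη0 _)
    have hzero : ∀ g : Fin n → Fin n ⊕ Fin n, (∃ i, g i = emb n x i₁) →
        (φ g u').rep j₁ = 0 := by
      rintro g ⟨i, hi⟩
      refine (hφ g u').rep_zero (l := j₂) ⟨_, mul_ne_zero hwt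
        (Finset.prod_ne_zero_iff.2 fun i _ => hj₂' (g i)), hcν g j₂⟩ ?_
      have h2 := hcν g j₁
      rwa [Finset.prod_eq_zero (Finset.mem_univ i) (by rw [hi, hνe, hi₁, sub_self]),
        mul_zero] at h2
    apply op2_eq_zero hζ1
    rcases hc : (τ.viaEmbedding (emb n x)).symm (emb n x i₁) with i | i
    · left
      refine ⟨j₁, hzero _ ⟨i, ?_⟩, hψ1 _⟩
      rw [hgl]
      simp only
      rw [← hc, Equiv.apply_symm_apply]
    · right
      refine ⟨j₁, hzero _ ⟨i, ?_⟩, hψ1 _⟩
      rw [hgr]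
      simp only
      rw [← hc, Equiv.apply_symm_apply]
  -- conclusion
  have hup : ∀ {u : Place k F} {c : k}, u.At (algebraMap (RatFunc k) F RatFunc.X) c →
      ∀ τ : F ≃ₐ[RatFunc k] F,
        (u.map (τ.restrictScalars k)).At (algebraMap (RatFunc k) F RatFunc.X) c := by
    intro u c hu τ
    rw [Place.at_map]
    have : (τ.restrictScalars k).symm (algebraMap (RatFunc k) F RatFunc.X) =
        algebraMap (RatFunc k) F RatFunc.X := τ.symm.commutes _
    rw [this]
    exact hu
  have hvan : ∀ {u : Place k F} {c : k}, u.At (algebraMap (RatFunc k) F RatFunc.X) c →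
      u.Vanishes (algebraMap (RatFunc k) F (RatFunc.X - RatFunc.C c)) := by
    intro u c hu
    rw [map_sub, hRC]
    exact hu
  have hrel : ∀ τ : Equiv.Perm (Fin (n + 1)), op2 ζ ψ ψ (∑ σ : F ≃ₐ[RatFunc k] F, (Finsupp.single
      (φ (gl τ) (v.map (σ.restrictScalars k)), φ (gr τ) (v.map (σ.restrictScalars k))) (1 : R) -
        Finsupp.single (φ (gl τ) (w.map (σ.restrictScalars k)),
          φ (gr τ) (w.map (σ.restrictScalars k))) 1)) ∈ ratEquiv2 R (Diag m (osc l e r)) :=
    fun τ => op2_mem ψ ψ hact (gen2_mem (hφ (gl τ)) (hφ (gr τ)) (hφX _) (hφX _)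
      (hvan hv) (hvan hw))
  have hrel' := Submodule.smul_mem _ c₀ (Submodule.sum_mem _ fun τ (_ : τ ∈ Finset.univ) => hrel τ)
  have hfin : c₀ • ∑ τ : Equiv.Perm (Fin (n + 1)), op2 ζ ψ ψ (∑ σ : F ≃ₐ[RatFunc k] F,
      (Finsupp.single (φ (gl τ) (v.map (σ.restrictScalars k)),
        φ (gr τ) (v.map (σ.restrictScalars k))) (1 : R) -
        Finsupp.single (φ (gl τ) (w.map (σ.restrictScalars k)),
          φ (gr τ) (w.map (σ.restrictScalars k))) 1)) =
      (Fintype.card (F ≃ₐ[RatFunc k] F) : R) • ∑ τ, pt2 ζ ψ h0 (gl τ, gr τ) := by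
    have h1 : ∀ τ : Equiv.Perm (Fin (n + 1)), op2 ζ ψ ψ (∑ σ : F ≃ₐ[RatFunc k] F,
        (Finsupp.single (φ (gl τ) (v.map (σ.restrictScalars k)),
        φ (gr τ) (v.map (σ.restrictScalars k))) (1 : R) -
        Finsupp.single (φ (gl τ) (w.map (σ.restrictScalars k)),
          φ (gr τ) (w.map (σ.restrictScalars k))) 1)) = ∑ σ : F ≃ₐ[RatFunc k] F,
        op2 ζ ψ ψ (Finsupp.single (φ (gl τ) (v.map (σ.restrictScalars k)),
        φ (gr τ) (v.map (σ.restrictScalars k))) (1 : R)) := by
      intro τ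
      rw [map_sum]
      refine Finset.sum_congr rfl fun σ _ => ?_
      rw [map_sub, key₁ _ (hup hw σ), sub_zero]
    rw [Finset.sum_congr rfl fun τ _ => h1 τ, Finset.sum_comm, Finset.smul_sum,
      Finset.sum_congr rfl fun σ _ => key₀ _ (hup hv σ), Finset.sum_const, Finset.card_univ,
      Nat.cast_smul_eq_nsmul]
  rw [hfin] at hrel'
  have hcard : (Fintype.card (F ≃ₐ[RatFunc k] F) : R) ≠ 0 :=
    Nat.cast_ne_zero.2 Fintype.card_ne_zero
  exact (Submodule.smul_mem_iff _ hcard).1 hrel'

end Core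

end Pool.Agent.GBB
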