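import Pool.Agent.GBB.Defs2

/-!
# Descent to rational coefficients and Galois conjugation
-/

set_option autoImplicit false

noncomputable section

namespace Pool.Agent.GBB

open Pool.Agent.ZCyc Pool.Agent.DCI57
open scoped LinearAlgebra.Projectivization

variable {d m m' N : ℕ}

private theorem descent_lin {T : Type} (f : (T →₀ ℚ) →ₗ[ℚ] ℚ) (w : T →₀ ℚ) :
    Finsupp.linearCombination ℂ (fun p : T => ((f (Finsupp.single p 1) : ℚ) : ℂ))
      (w.mapRange (fun c : ℚ => (c : ℂ)) (by simp)) = ((f w : ℚ) : ℂ) := by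
  induction w using Finsupp.induction_linear with
  | zero => simp
  | add a b ha hb =>
    rw [Finsupp.mapRange_add (by intro x y; push_cast; rfl), map_add, map_add, ha, hb]
    push_cast
    rfl
  | single p c =>
    rw [Finsupp.mapRange_single, Finsupp.linearCombination_single, smul_eq_mul]
    have : (Finsupp.single p c : T →₀ ℚ) = c • Finsupp.single p 1 := by simp
    rw [this, map_smul, smul_eq_mul]
    push_cast
    rfl

/-- rational coefficients -/
theorem ratEq_descent (X : Set (ℙ ℂ (Fin N → ℂ))) (z : Pts m N →₀ ℚ)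
    (h : z.mapRange (fun c : ℚ => (c : ℂ)) (by simp) ∈ ratEq ℂ X m) : z ∈ ratEq ℚ X m := by
  by_contra hz
  obtain ⟨f, hf, hle⟩ := Submodule.exists_le_ker_of_notMem hz
  have key : ratEq ℂ X m ≤ LinearMap.ker
      (Finsupp.linearCombination ℂ (fun p : Pts m N => ((f (Finsupp.single p 1) : ℚ) : ℂ))) := by
    unfold ratEq
    rw [Submodule.span_le]
    rintro y ⟨F, i1, i2, i3, i4, i5, i6, x, φ, h1, h2, a, b, v, w, h3, h4, hy⟩
    have hw : (∑ τ : F ≃ₐ[RatFunc ℂ] F, (Finsupp.single (φ (v.map (τ.restrictScalars ℂ))) 1 -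
        Finsupp.single (φ (w.map (τ.restrictScalars ℂ))) 1) : Pts m N →₀ ℚ) ∈ ratEq ℚ X m := by
      unfold ratEq
      exact Submodule.subset_span
        ⟨F, i1, i2, i3, i4, i5, i6, x, φ, h1, h2, a, b, v, w, h3, h4, rfl⟩
    have hk := hle hw
    rw [LinearMap.mem_ker] at hk
    have h8 := descent_lin f (∑ τ : F ≃ₐ[RatFunc ℂ] F,
      (Finsupp.single (φ (v.map (τ.restrictScalars ℂ))) 1 -
        Finsupp.single (φ (w.map (τ.restrictScalars ℂ))) 1))
    rw [hk] at h8
    have h9 : (∑ τ : F ≃ₐ[RatFunc ℂ] F, (Finsupp.single (φ (v.map (τ.restrictScalars ℂ))) 1 -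
        Finsupp.single (φ (w.map (τ.restrictScalars ℂ))) 1) :
        Pts m N →₀ ℚ).mapRange (fun c : ℚ => (c : ℂ)) (by simp) = y := by
      rw [hy]
      have e : ∀ w : Pts m N →₀ ℚ, w.mapRange (fun c : ℚ => (c : ℂ)) (by simp) =
          Finsupp.mapRange.addMonoidHom (Rat.castHom ℂ).toAddMonoidHom w := by
        intro w
        rfl
      rw [e, map_sum]
      refine Finset.sum_congr rfl fun τ _ => ?_
      rw [map_sub]
      simp
    rw [h9] at h8
    rw [SetLike.mem_coe, LinearMap.mem_ker, h8]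
    simp
  have h1 := key h
  rw [LinearMap.mem_ker, descent_lin] at h1
  exact hf (by exact_mod_cast h1)

private theorem descent_prim [NeZero d] (t : (ZMod d)ˣ) :
    IsPrimitiveRoot (psi (t : ZMod d)) d :=
  (zeta_prim d).pow_of_coprime _ (ZMod.val_coe_unit_coprime t)

private theorem descent_pow [NeZero d] (n : ℕ) (k : ZMod d) :
    psi ((n : ZMod d) * k) = psi k ^ n := by
  induction n with
  | zero => rw [Nat.cast_zero, zero_mul, psi_zero, pow_zero]
  | succ n ih => rw [Nat.cast_succ, add_mul, one_mul, psi_add, ih, pow_succ]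

/-- Galois conjugation -/
theorem psi_conj [NeZero d] {I : Type} (s : Finset I) (c : I → ℚ) (k : I → ZMod d)
    (t : (ZMod d)ˣ) (h : ∑ i ∈ s, (c i : ℂ) * psi (k i) = 0) :
    ∑ i ∈ s, (c i : ℂ) * psi ((t : ZMod d) * k i) = 0 := by
  set P : Polynomial ℚ := ∑ i ∈ s, Polynomial.C (c i) * Polynomial.X ^ (k i).val with hP
  have hval : ∀ z : ℂ, Polynomial.aeval z P = ∑ i ∈ s, (c i : ℂ) * z ^ (k i).val := by
    intro z
    rw [hP, map_sum]
    refine Finset.sum_congr rfl fun i _ => ?_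
    rw [map_mul, Polynomial.aeval_C, map_pow, Polynomial.aeval_X]
    rfl
  have h1 : Polynomial.aeval ((zeta d : ℂˣ) : ℂ) P = 0 := by
    rw [hval, ← h]
    rfl
  have hd : 0 < d := Nat.pos_of_ne_zero (NeZero.ne d)
  have pt := descent_prim t
  have hdvd : minpoly ℚ (psi (t : ZMod d)) ∣ P := by
    rw [← Polynomial.cyclotomic_eq_minpoly_rat pt hd,
      Polynomial.cyclotomic_eq_minpoly_rat (zeta_prim d) hd]
    exact minpoly.dvd ℚ _ h1
  have h2 : Polynomial.aeval (psi (t : ZMod d)) P = 0 := by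
    obtain ⟨Q, hQ⟩ := hdvd
    rw [hQ, map_mul, minpoly.aeval, zero_mul]
  rw [hval] at h2
  rw [← h2]
  refine Finset.sum_congr rfl fun i _ => ?_
  congr 1
  rw [← descent_pow, ZMod.natCast_zmod_val, mul_comm]

end Pool.Agent.GBB
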