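import Pool.Agent.GBB.Slot2
import Pool.Agent.GBB.Comb2
import Pool.Agent.GBB.Defs3
import Pool.Agent.GBB.Basic
import Pool.Agent.VCI.Mixed

/-!
# Two factors
-/

set_option autoImplicit false

noncomputable section

namespace Pool.Agent.GBB

open Pool.Agent.ZCyc Pool.Agent.DCI57
open Pool.Agent.VCI (op2 ratEquiv2)
open scoped LinearAlgebra.Projectivization

variable {d m m' N : ℕ}

theorem E_pair_zero [NeZero d] {r : ℕ} (hd : 1 < d) (hr : 1 ≤ r)
    (hN : (r - 1) * d + d / 2 + 2 ≤ N ∨ N = r * d) (c : Fin r → Fin N → ℂ)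
    (a : Fin m → Fin N → ZMod d) (p : Pts m N) (hp : OnX (Diag d c) p) (i₁ i₂ : Fin m)
    (hi : i₁ ≠ i₂) {t t' : (ZMod d)ˣ} {b b' : Fin N → ℕ} (h : Typ r (a i₁) t b)
    (h' : Typ r (a i₂) t' b') (htt : t ≠ t') : E (Diag d c) a p = 0 := by
  obtain ⟨β, hβ, hsum, hconn⟩ := comb_two hd hr hN h h' htt
  exact E_zero_of_op2 (stab_diag c) a p hp i₁ i₂ hi
    (Pool.Agent.VCI.mixed (zeta_prim d) c (zeta_prim d) h.2.2.2.1 h'.2.2.2.1
      (chi_apply _) (chi_apply _) hβ hsum (Nat.lt_succ_self _) hconn (hp i₁) (hp i₂))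

theorem E_swap [NeZero d] {n r : ℕ} {c : Fin r → Fin N → ℂ} (hsw : HasSwap (d := d) n r c)
    (a : Fin m → Fin N → ZMod d) (p : Pts m N) (hp : OnX (Diag d c) p)
    (i₁ i₂ : Fin m) (hi : i₁ ≠ i₂) (haa : a i₁ = a i₂) {t : (ZMod d)ˣ} {b : Fin N → ℕ}
    (h : Typ r (a i₁) t b) : E (Diag d c) a (p ∘ Equiv.swap i₁ i₂) =
      (-1 : ℂ) ^ n • E (Diag d c) a p :=
  E_swap_of_op2 (stab_diag c) a p hp i₁ i₂ hi haa n
    (hsw (a i₁) t b h (p i₁) (p i₂) (hp i₁) (hp i₂))

/-- all permutations of the factors which fix the character -/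
theorem E_perm [NeZero d] {n r : ℕ} {c : Fin r → Fin N → ℂ} (hsw : HasSwap (d := d) n r c)
    (a : Fin m → Fin N → ZMod d) (ha : ∀ i, ∃ t b, Typ r (a i) t b) (τ : Equiv.Perm (Fin m))
    (hτ : ∀ i, a (τ i) = a i) (p : Pts m N) (hp : OnX (Diag d c) p) :
    E (Diag d c) a (p ∘ τ) =
      (((Equiv.Perm.sign τ : ℤˣ) : ℤ) : ℂ) ^ n • E (Diag d c) a p := by
  classical
  induction hs : τ.support.card using Nat.strong_induction_on generalizing τ p with
  | _ s ih =>
    by_cases h1 : τ = 1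
    · subst h1
      have h2 : p ∘ (⇑(1 : Equiv.Perm (Fin m))) = p := rfl
      rw [h2, Equiv.Perm.sign_one]
      simp
    · obtain ⟨i, hi⟩ : ∃ i, τ i ≠ i := by
        by_contra hcon
        push Not at hcon
        exact h1 (Equiv.ext hcon)
      have hσ : τ = Equiv.swap i (τ i) * (Equiv.swap i (τ i) * τ) := by
        rw [← mul_assoc, Equiv.swap_mul_self, one_mul]
      have hlt := Equiv.Perm.card_support_swap_mul (f := τ) hi
      have hsp : OnX (Diag d c) (p ∘ Equiv.swap i (τ i)) := fun j => hp _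
      have hinv : ∀ x, a (Equiv.swap i (τ i) x) = a x := by
        intro x
        rcases eq_or_ne x i with rfl | hx
        · rw [Equiv.swap_apply_left, hτ]
        · rcases eq_or_ne x (τ i) with rfl | hx'
          · rw [Equiv.swap_apply_right, hτ]
          · rw [Equiv.swap_apply_of_ne_of_ne hx hx']
      have h3 := ih _ (by rw [← hs]; exact hlt) (Equiv.swap i (τ i) * τ)
        (fun j => by rw [Equiv.Perm.mul_apply, hinv, hτ]) (p ∘ Equiv.swap i (τ i)) hsp rfl
      have h4 : (p ∘ Equiv.swap i (τ i)) ∘ (Equiv.swap i (τ i) * τ : Equiv.Perm (Fin m)) =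
          p ∘ τ := by
        funext j
        simp
      obtain ⟨t, b, htb⟩ := ha i
      rw [← h4, h3, E_swap hsw a p hp i (τ i) hi.symm (hτ i).symm htb, smul_smul]
      congr 1
      rw [Equiv.Perm.sign_mul, Equiv.Perm.sign_swap hi.symm]
      push_cast
      rw [← mul_pow]
      congr 1
      ring

end Pool.Agent.GBB
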