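import Pool.Agent.GBB.Basic
import Pool.Agent.DCI57.Final

/-!
# GBB: the class as a function of one factor
-/

set_option autoImplicit false

noncomputable section

namespace Pool.Agent.GBB

open Pool.Agent.ZCyc Pool.Agent.DCI57
open scoped LinearAlgebra.Projectivization

variable {d m m' N : ℕ}

/-- insertion of a point into the factor with number `i₀` -/
private def slo_ins (q : Pts m N) (i₀ : Fin m) (w : ℙ ℂ (Fin N → ℂ)) : Pts m N :=
  Function.update q i₀ w

private theorem slo_mem {X : Set (ℙ ℂ (Fin N → ℂ))} {q : Pts m N} (hq : OnX X q) (i₀ : Fin m)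
    {z : ℙ ℂ (Fin N → ℂ) →₀ ℂ} (hz : z ∈ ratEquiv ℂ X) :
    Finsupp.lmapDomain ℂ ℂ (slo_ins q i₀) z ∈ ratEq ℂ X m := by
  have hle : ratEquiv ℂ X ≤ (ratEq ℂ X m).comap (Finsupp.lmapDomain ℂ ℂ (slo_ins q i₀)) := by
    conv_lhs => rw [DCI57.ratEquiv]
    rw [Submodule.span_le]
    rintro _ ⟨F, _, _, _, _, _, _, x, φ, h1, h2, a, b, v, w, hv, hw, rfl⟩
    rw [SetLike.mem_coe, Submodule.mem_comap, map_sum]
    apply Submodule.subset_span
    refine ⟨F, _, _, _, inferInstance, inferInstance, inferInstance,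
      fun i j => if i = i₀ then x j else algebraMap ℂ F ((q i).rep j),
      fun v => slo_ins q i₀ (φ v), ?_, ?_, a, b, v, w, hv, hw, ?_⟩
    · intro v i
      by_cases hi : i = i₀
      · subst hi
        simp only [if_true]
        unfold slo_ins
        rw [Function.update_self]
        exact h1 v
      · simp only [if_neg hi]
        unfold slo_ins
        rw [Function.update_of_ne hi]
        refine ⟨1, fun j => ?_⟩
        rw [one_mul, sub_self]
        exact v.vanishes_zero
    · intro v i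
      show Function.update q i₀ (φ v) i ∈ X
      by_cases hi : i = i₀
      · subst hi
        rw [Function.update_self]
        exact h2 v
      · rw [Function.update_of_ne hi]
        exact hq i
    · refine Finset.sum_congr rfl fun τ _ => ?_
      rw [map_sub, Finsupp.lmapDomain_apply, Finsupp.lmapDomain_apply, Finsupp.mapDomain_single,
        Finsupp.mapDomain_single]
  exact hle hz

/-- the exponents in the other factors -/
private def slo_ext (i₀ : Fin m) (g : {i : Fin m // i ≠ i₀} → Fin N → ZMod d) :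
    Fin m → Fin N → ZMod d := fun i => if h : i = i₀ then 0 else g ⟨i, h⟩

/-- the class is a linear function of the image of the factor under the operator -/
private theorem slo_lin [NeZero d] {X : Set (ℙ ℂ (Fin N → ℂ))} (hX : Stab d X)
    (a : Fin m → Fin N → ZMod d) (p : Pts m N) (hp : OnX X p) (i₀ : Fin m) :
    ∃ L : (ℙ ℂ (Fin N → ℂ) →₀ ℂ) →ₗ[ℂ] V X m, (∀ z ∈ ratEquiv ℂ X, L z = 0) ∧
      ∀ w, E X a (Function.update p i₀ w) =
        L (op (zeta d) (chi (a i₀)) (Finsupp.single w 1)) := by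
  refine ⟨∑ g : {i : Fin m // i ≠ i₀} → Fin N → ZMod d,
    psi (∑ i, ∑ j, a i j * slo_ext i₀ g i j) • (ratEq ℂ X m).mkQ ∘ₗ
      Finsupp.lmapDomain ℂ ℂ (slo_ins (actM (slo_ext i₀ g) p) i₀), ?_, ?_⟩
  · intro z hz
    rw [LinearMap.sum_apply]
    refine Finset.sum_eq_zero fun g _ => ?_
    have h1 : OnX X (actM (slo_ext i₀ g) p) := fun i => stab_act hX _ (hp i)
    rw [LinearMap.smul_apply, LinearMap.comp_apply, Submodule.mkQ_apply,
      (Submodule.Quotient.mk_eq_zero _).2 (slo_mem h1 i₀ hz), smul_zero]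
  · intro w
    unfold E
    rw [← Equiv.sum_comp (Equiv.funSplitAt i₀ (Fin N → ZMod d)).symm, Fintype.sum_prod_type,
      Finset.sum_comm, LinearMap.sum_apply]
    refine Finset.sum_congr rfl fun g _ => ?_
    rw [LinearMap.smul_apply, LinearMap.comp_apply, op_single, map_sum, map_sum, Finset.smul_sum]
    refine Finset.sum_congr rfl fun h _ => ?_
    rw [Finsupp.lmapDomain_apply, Finsupp.mapDomain_single]
    have e0 : ∀ i, (Equiv.funSplitAt i₀ (Fin N → ZMod d)).symm (h, g) i =
        if hi : i = i₀ then h else g ⟨i, hi⟩ := by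
      intro i
      by_cases hi : i = i₀
      · subst hi
        simp [Equiv.funSplitAt, Equiv.piSplitAt]
      · simp [Equiv.funSplitAt, Equiv.piSplitAt, hi]
    have e1 : actM ((Equiv.funSplitAt i₀ (Fin N → ZMod d)).symm (h, g))
        (Function.update p i₀ w) =
        slo_ins (actM (slo_ext i₀ g) p) i₀ (act (zeta d) h w) := by
      funext i
      unfold slo_ins actM
      rw [e0]
      by_cases hi : i = i₀
      · subst hi
        rw [dif_pos rfl, Function.update_self, Function.update_self]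
      · rw [dif_neg hi, Function.update_of_ne hi, Function.update_of_ne hi, slo_ext, dif_neg hi]
    have e2 : ∑ i, ∑ j, a i j * (Equiv.funSplitAt i₀ (Fin N → ZMod d)).symm (h, g) i j =
        ∑ i, ∑ j, a i j * slo_ext i₀ g i j + ∑ j, a i₀ j * h j := by
      rw [← Finset.add_sum_erase _ _ (Finset.mem_univ i₀),
        ← Finset.add_sum_erase Finset.univ (fun i => ∑ j, a i j * slo_ext i₀ g i j)
          (Finset.mem_univ i₀)]
      have e3 : ∑ j, a i₀ j * slo_ext i₀ g i₀ j = 0 := by
        refine Finset.sum_eq_zero fun j _ => ?_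
        rw [slo_ext, dif_pos rfl, Pi.zero_apply, mul_zero]
      have e4 : ∑ i ∈ Finset.univ.erase i₀,
          ∑ j, a i j * (Equiv.funSplitAt i₀ (Fin N → ZMod d)).symm (h, g) i j =
          ∑ i ∈ Finset.univ.erase i₀, ∑ j, a i j * slo_ext i₀ g i j := by
        refine Finset.sum_congr rfl fun i hi => Finset.sum_congr rfl fun j _ => ?_
        have hi' := (Finset.mem_erase.1 hi).1
        rw [e0, dif_neg hi', slo_ext, dif_neg hi']
      rw [e3, zero_add, e4, e0, dif_pos rfl, add_comm]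
    rw [e1, e2, psi_add, ← smul_smul]
    congr 1
    unfold cl
    rw [Submodule.mkQ_apply, ← Submodule.Quotient.mk_smul, Finsupp.smul_single, smul_eq_mul,
      mul_one]
    rfl

theorem E_sub_of_op [NeZero d] {X : Set (ℙ ℂ (Fin N → ℂ))} (hX : Stab d X)
    (a : Fin m → Fin N → ZMod d) (p : Pts m N) (hp : OnX X p) (i₀ : Fin m)
    {u v : ℙ ℂ (Fin N → ℂ)} (h : op (zeta d) (chi (a i₀)) (Finsupp.single u 1) -
      op (zeta d) (chi (a i₀)) (Finsupp.single v 1) ∈ ratEquiv ℂ X) :
    E X a (Function.update p i₀ u) = E X a (Function.update p i₀ v) := by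
  obtain ⟨L, hL, hE⟩ := slo_lin hX a p hp i₀
  have h1 := hL _ h
  rw [map_sub, ← hE, ← hE, sub_eq_zero] at h1
  exact h1

theorem E_zero_of_op [NeZero d] {X : Set (ℙ ℂ (Fin N → ℂ))} (hX : Stab d X)
    (a : Fin m → Fin N → ZMod d) (p : Pts m N) (hp : OnX X p) (i₀ : Fin m)
    (h : op (zeta d) (chi (a i₀)) (Finsupp.single (p i₀) 1) ∈ ratEquiv ℂ X) : E X a p = 0 := by
  obtain ⟨L, hL, hE⟩ := slo_lin hX a p hp i₀
  have h1 := hL _ h
  rwa [← hE, Function.update_eq_self] at h1

/-- from `DCI57.trivial_part` -/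
theorem E_const [NeZero d] {r : ℕ} (c : Fin r → Fin N → ℂ) (a : Fin m → Fin N → ZMod d)
    (p : Pts m N) (hp : OnX (Diag d c) p) (i₀ : Fin m) (h0 : a i₀ = 0) {u : ℙ ℂ (Fin N → ℂ)}
    (hu : u ∈ Diag d c) : E (Diag d c) a (Function.update p i₀ u) = E (Diag d c) a p := by
  have h1 : ∀ t, chi (a i₀) t = 1 := by
    intro t
    rw [h0]
    show psi (∑ j, (0 : Fin N → ZMod d) j * t j) = 1
    simp [psi_zero]
  have h2 := E_sub_of_op (stab_diag c) a p hp i₀
    (trivial_part (R := ℂ) (zeta_prim d) c hu (hp i₀) h1)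
  rwa [Function.update_eq_self] at h2

/-- from `DCI57.vanish` -/
theorem E_zero_of_blocks [NeZero d] {r : ℕ} (c : Fin r → Fin N → ℂ)
    (a : Fin m → Fin N → ZMod d) (p : Pts m N) (hp : OnX (Diag d c) p) (i₀ : Fin m)
    (h0 : a i₀ ≠ 0) {s : ℕ} (b : Fin N → Fin s) (hb : ∀ B, ∃ j, a i₀ j ≠ 0 ∧ b j = B)
    (hsum : ∀ B, ∑ j with b j = B, a i₀ j = 0)
    (hcard : (Finset.univ.filter fun j => a i₀ j ≠ 0).card + r < N + s) :
    E (Diag d c) a p = 0 := by
  apply E_zero_of_op (stab_diag c) a p hp i₀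
  refine vanish (R := ℂ) (zeta_prim d) c (ω := ((zeta d : ℂˣ) : ℂ)) (zeta_prim d) (a := a i₀)
    (chi_apply (a i₀)) (S := Finset.univ.filter fun j => a i₀ j ≠ 0)
    (fun j => by rw [Finset.mem_filter]; exact ⟨fun h => h.2, fun h => ⟨Finset.mem_univ _, h⟩⟩)
    ?_ b ?_ ?_ ?_ (hp i₀)
  · by_contra hcon
    rw [Finset.not_nonempty_iff_eq_empty, Finset.filter_eq_empty_iff] at hcon
    apply h0
    funext j
    by_contra hj
    exact hcon (Finset.mem_univ j) hj
  · intro B
    obtain ⟨j, hj, hjB⟩ := hb B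
    exact ⟨j, by rw [Finset.mem_filter]; exact ⟨Finset.mem_univ _, hj⟩, hjB⟩
  · intro B
    refine Eq.trans ?_ (hsum B)
    rw [Finset.filter_filter]
    refine Finset.sum_subset (fun j hj => ?_) (fun j hj hj' => ?_)
    · rw [Finset.mem_filter] at hj ⊢
      exact ⟨hj.1, hj.2.2⟩
    · rw [Finset.mem_filter] at hj hj'
      by_contra hne
      exact hj' ⟨hj.1, hne, hj.2⟩
  · rw [Fintype.card_fin]
    exact hcard

end Pool.Agent.GBB
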