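import Pool.Agent.GBB.Basic
import Pool.Agent.GBB.Slot1
import Pool.Agent.GBB.Comb1
import Pool.Agent.GBB.Pairs
import Pool.Agent.GBB.Coeff
import Pool.Agent.GBB.Descent

/-!
# GBB: the theorem
-/

set_option autoImplicit false

noncomputable section

namespace Pool.Agent.GBB

open scoped LinearAlgebra.Projectivization
open Pool.Agent.ZCyc Pool.Agent.DCI57

variable {d m N : ℕ}

/-- the vertices of the product of differences -/
private def vtx {k : ℕ} (x y : Pts k N) (S : Finset (Fin k)) : Pts k N :=
  fun i => if i ∈ S then y i else x i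

private lemma onX_vtx {k : ℕ} {X : Set (ℙ ℂ (Fin N → ℂ))} {x y : Pts k N} (hx : OnX X x)
    (hy : OnX X y) (S : Finset (Fin k)) : OnX X (vtx x y S) := by
  intro i
  unfold vtx
  by_cases h : i ∈ S
  · simp only [h, if_true]
    exact hy i
  · simp only [h, if_false]
    exact hx i

/-- class of the image of a zero-cycle -/
private lemma push_class {k : ℕ} (X : Set (ℙ ℂ (Fin N → ℂ))) (γ : Sym d k N →₀ ℚ)
    (x y : Pts k N) :
    (Submodule.Quotient.mk ((push γ (cyc Finset.univ x y)).mapRange (fun c : ℚ => (c : ℂ))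
      (by simp)) : V X k) = ∑ g ∈ γ.support, (γ g : ℂ) • ∑ S : Finset (Fin k),
        ((-1 : ℂ) ^ S.card) • cl X (g.act (vtx x y S)) := by
  classical
  have h2 : (push γ (cyc Finset.univ x y)).mapRange (fun c : ℚ => (c : ℂ)) (by simp) =
      ∑ g ∈ γ.support, (γ g : ℂ) • ∑ S : Finset (Fin k),
        ((-1 : ℂ) ^ S.card) • Finsupp.single (g.act (vtx x y S)) (1 : ℂ) := by
    have key : ∀ z : Pts k N →₀ ℚ, z.mapRange (fun c : ℚ => (c : ℂ)) (by simp) =
        Finsupp.mapRange.addMonoidHom ((algebraMap ℚ ℂ).toAddMonoidHom) z := by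
      intro z
      rfl
    rw [key]
    unfold push cyc
    rw [Finsupp.sum, map_sum]
    apply Finset.sum_congr rfl
    intro g _
    rw [Finsupp.mapDomain_finsetSum, Finset.smul_sum, map_sum, Finset.smul_sum,
      Finset.powerset_univ]
    apply Finset.sum_congr rfl
    intro S _
    rw [Finsupp.mapDomain_single, Finsupp.smul_single, Finsupp.smul_single,
      Finsupp.smul_single, Finsupp.mapRange.addMonoidHom_apply, Finsupp.mapRange_single]
    congr 1
    simp
  rw [h2]
  unfold cl
  rw [← Submodule.mkQ_apply, map_sum]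
  apply Finset.sum_congr rfl
  intro g _
  rw [map_smul, map_sum]
  congr 1

private lemma main_aux [NeZero d] {k n r : ℕ} (hd : 1 < d) (hr : 1 ≤ r)
    (hN : (r - 1) * d + d / 2 + 2 ≤ N ∨ N = r * d) {c : Fin r → Fin N → ℂ}
    (hsw : HasSwap (d := d) n r c) (hk : 0 < k) (γ : Sym d k N →₀ ℚ)
    (hγ : KillsForms n r γ) (x y : Pts k N) (hx : OnX (Diag d c) x)
    (hy : OnX (Diag d c) y) :
    ∑ g ∈ γ.support, (γ g : ℂ) • ∑ S : Finset (Fin k),
      ((-1 : ℂ) ^ S.card) • cl (Diag d c) (g.act (vtx x y S)) = 0 := by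
  classical
  have hd0 : 0 < d := by omega
  -- logarithms of the roots of unity
  have hz : ∀ g : Sym d k N, ∀ i j, ∃ a : ZMod d, ((g.2 i j : ℂˣ) : ℂ) = psi a := by
    intro g i j
    apply exists_psi
    have := (g.2 i j).2
    rw [mem_rootsOfUnity] at this
    have h2 := congrArg (Units.val) this
    simpa using h2
  choose z hz using hz
  -- the permuted vertices
  let w : Sym d k N → Finset (Fin k) → Pts k N := fun g S => vtx x y S ∘ g.1
  have hw : ∀ g S, OnX (Diag d c) (w g S) := fun g S i => onX_vtx hx hy S (g.1 i)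
  have hact : ∀ g S, g.act (vtx x y S) = actM (z g) (w g S) := by
    intro g S
    funext i
    exact act_eq_mk (g.2 i) (z g i) (hz g i) (vtx x y S (g.1 i))
  -- Fourier expansion
  have hdc : ((d : ℂ) ^ (k * N)) ≠ 0 := pow_ne_zero _ (by exact_mod_cast hd0.ne')
  have hexp : ((d : ℂ) ^ (k * N)) • (∑ g ∈ γ.support, (γ g : ℂ) • ∑ S : Finset (Fin k),
      ((-1 : ℂ) ^ S.card) • cl (Diag d c) (g.act (vtx x y S))) =
      ∑ a : Fin k → Fin N → ZMod d, ∑ g ∈ γ.support, (γ g : ℂ) • ∑ S : Finset (Fin k),
        ((-1 : ℂ) ^ S.card) • psi (-∑ i, ∑ j, a i j * z g i j) •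
          E (Diag d c) a (w g S) := by
    rw [Finset.sum_comm, Finset.smul_sum]
    apply Finset.sum_congr rfl
    intro g _
    rw [← Finset.smul_sum, smul_comm]
    congr 1
    rw [Finset.sum_comm, Finset.smul_sum]
    apply Finset.sum_congr rfl
    intro S _
    rw [← Finset.smul_sum, smul_comm]
    congr 1
    rw [← sum_E]
    apply Finset.sum_congr rfl
    intro a _
    rw [hact, E_act]
  suffices hT : ∀ a : Fin k → Fin N → ZMod d, ∑ g ∈ γ.support, (γ g : ℂ) •
      ∑ S : Finset (Fin k), ((-1 : ℂ) ^ S.card) • psi (-∑ i, ∑ j, a i j * z g i j) •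
        E (Diag d c) a (w g S) = 0 by
    have h0 : ((d : ℂ) ^ (k * N)) • (∑ g ∈ γ.support, (γ g : ℂ) • ∑ S : Finset (Fin k),
      ((-1 : ℂ) ^ S.card) • cl (Diag d c) (g.act (vtx x y S))) = 0 := by
      rw [hexp]
      exact Finset.sum_eq_zero fun a _ => hT a
    exact (smul_eq_zero.1 h0).resolve_left hdc
  intro a
  -- case (i): a component of the character is trivial
  by_cases c1 : ∃ i₀, a i₀ = 0
  · obtain ⟨i₀, hi₀⟩ := c1
    apply Finset.sum_eq_zero
    intro g _
    have : ∑ S : Finset (Fin k), ((-1 : ℂ) ^ S.card) •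
        psi (-∑ i, ∑ j, a i j * z g i j) • E (Diag d c) a (w g S) = 0 := by
      set i' := g.1 i₀ with hi'
      apply Finset.sum_involution (fun S _ => symmDiff S {i'})
      · intro S _
        have h1 : E (Diag d c) a (w g (symmDiff S {i'})) = E (Diag d c) a (w g S) := by
          have h2 : w g (symmDiff S {i'}) =
              Function.update (w g S) i₀ (w g (symmDiff S {i'}) i₀) := by
            funext i
            by_cases hi : i = i₀
            · subst hi
              rw [Function.update_self]
            · rw [Function.update_of_ne hi]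
              have h3 : g.1 i ≠ i' := by
                intro h
                exact hi (g.1.injective h)
              simp only [w, vtx, Function.comp_apply]
              have h4 : (g.1 i ∈ symmDiff S {i'}) ↔ g.1 i ∈ S := by
                rw [Finset.mem_symmDiff]
                simp [h3]
              simp only [h4]
          rw [h2]
          exact E_const c a (w g S) (hw g S) i₀ hi₀ (hw g (symmDiff S {i'}) i₀)
        rw [h1, ← add_smul]
        have h7 : ((-1 : ℂ) ^ S.card) + (-1 : ℂ) ^ (symmDiff S {i'}).card = 0 := by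
          by_cases hS : i' ∈ S
          · have : symmDiff S {i'} = S.erase i' := by
              ext l
              rw [Finset.mem_symmDiff, Finset.mem_erase, Finset.mem_singleton]
              constructor
              · rintro (⟨h, h'⟩ | ⟨h, h'⟩)
                · exact ⟨h', h⟩
                · subst h
                  exact absurd hS h'
              · rintro ⟨h, h'⟩
                exact Or.inl ⟨h', h⟩
            rw [this]
            have h8 := Finset.card_erase_add_one hS
            rw [← h8, pow_succ]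
            ring
          · have : symmDiff S {i'} = insert i' S := by
              ext l
              rw [Finset.mem_symmDiff, Finset.mem_insert, Finset.mem_singleton]
              constructor
              · rintro (⟨h, h'⟩ | ⟨h, h'⟩)
                · exact Or.inr h
                · exact Or.inl h
              · rintro (h | h)
                · subst h
                  exact Or.inr ⟨rfl, hS⟩
                · refine Or.inl ⟨h, ?_⟩
                  rintro rfl
                  exact hS h
            rw [this, Finset.card_insert_of_notMem hS, pow_succ]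
            ring
        rw [h7, zero_smul]
      · intro S _ _ h
        have : i' ∈ symmDiff S {i'} ↔ i' ∈ S := by rw [h]
        rw [Finset.mem_symmDiff] at this
        by_cases hS : i' ∈ S <;> simp [hS] at this
      · intro S _
        exact symmDiff_symmDiff_cancel_right _ _
      · intro S _
        exact Finset.mem_univ _
    rw [this, smul_zero]
  push Not at c1
  -- all the E vanish
  by_cases c2 : ∀ u : Pts k N, OnX (Diag d c) u → E (Diag d c) a u = 0
  · apply Finset.sum_eq_zero
    intro g _
    have : ∑ S : Finset (Fin k), ((-1 : ℂ) ^ S.card) •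
        psi (-∑ i, ∑ j, a i j * z g i j) • E (Diag d c) a (w g S) = 0 := by
      apply Finset.sum_eq_zero
      intro S _
      rw [c2 _ (hw g S), smul_zero, smul_zero]
    rw [this, smul_zero]
  have hTyp : ∀ i, ∃ (t : (ZMod d)ˣ) (b : Fin N → ℕ), Typ r (a i) t b := by
    intro i
    by_contra hcon
    apply c2
    intro u hu
    by_cases hsum : ∑ j, a i j = 0
    · rcases comb_one hd hr hN (a i) (c1 i) hsum with ⟨s, b, h1, h2, h3⟩ | h
      · exact E_zero_of_blocks c a u hu i (c1 i) b h1 h2 h3
      · exact absurd h hcon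
    · exact E_zero_of_sum (Diag d c) a u i hsum
  choose t b hTb using hTyp
  have htt : ∀ i i', t i = t i' := by
    intro i₁ i₂
    by_contra hcon
    apply c2
    intro u hu
    have hi : i₁ ≠ i₂ := by
      rintro rfl
      exact hcon rfl
    exact E_pair_zero hd hr hN c a u hu i₁ i₂ hi (hTb i₁) (hTb i₂) hcon
  have hb0 : ∀ i j, 0 < b i j := fun i => (hTb i).1
  have hbs : ∀ i, ∑ j, b i j = r * d := fun i => (hTb i).2.1
  have hab : ∀ i j, a i j = (t i : ZMod d) * (b i j : ZMod d) := fun i => (hTb i).2.2.1
  -- exchange the sums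
  have hswap : ∑ g ∈ γ.support, (γ g : ℂ) • ∑ S : Finset (Fin k),
      ((-1 : ℂ) ^ S.card) • psi (-∑ i, ∑ j, a i j * z g i j) • E (Diag d c) a (w g S) =
      ∑ S : Finset (Fin k), ((-1 : ℂ) ^ S.card) • ∑ g ∈ γ.support,
        ((γ g : ℂ) * psi (-∑ i, ∑ j, a i j * z g i j)) • E (Diag d c) a (w g S) := by
    simp only [Finset.smul_sum]
    rw [Finset.sum_comm]
    apply Finset.sum_congr rfl
    intro S _
    apply Finset.sum_congr rfl
    intro g _
    simp only [smul_smul]
    congr 1
    ring
  rw [hswap]
  apply Finset.sum_eq_zero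
  intro S _
  have key : ∑ g ∈ γ.support,
        ((γ g : ℂ) * psi (-∑ i, ∑ j, a i j * z g i j)) • E (Diag d c) a (w g S) = 0 := by
    let f : Sym d k N → (Fin k → Fin N → ℕ) := fun g i j => b (g.1.symm i) j
    rw [← Finset.sum_fiberwise_of_maps_to (s := γ.support) (t := γ.support.image f)
      (g := f) (fun g hg => Finset.mem_image_of_mem f hg)]
    apply Finset.sum_eq_zero
    intro e he
    obtain ⟨g₀, hg₀, hge⟩ := Finset.mem_image.1 he
    -- the sign
    have hsign : ∀ g : Sym d k N, f g = e → E (Diag d c) a (w g S) =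
        ((((Equiv.Perm.sign g.1 : ℤˣ) : ℤ) : ℂ) ^ n *
          (((Equiv.Perm.sign g₀.1 : ℤˣ) : ℤ) : ℂ) ^ n) • E (Diag d c) a (w g₀ S) := by
      intro g hg
      let τ : Equiv.Perm (Fin k) := g₀.1⁻¹ * g.1
      have hτ1 : ∀ i, τ i = g₀.1.symm (g.1 i) := fun i => rfl
      have hτa : ∀ i, a (τ i) = a i := by
        intro i
        funext j
        rw [hab, hab, htt (τ i) i]
        congr 2
        have h2 := congrFun (congrFun (hg.trans hge.symm) (g.1 i)) j
        simp only [f, Equiv.symm_apply_apply] at h2
        rw [hτ1]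
        exact h2.symm
      have h3 := E_perm hsw a (fun i => ⟨t i, b i, hTb i⟩) τ hτa (w g₀ S) (hw g₀ S)
      have h4 : w g₀ S ∘ τ = w g S := by
        funext i
        simp only [w, Function.comp_apply, hτ1, Equiv.apply_symm_apply]
      rw [h4] at h3
      rw [h3]
      congr 1
      have h5 : Equiv.Perm.sign τ = Equiv.Perm.sign g₀.1 * Equiv.Perm.sign g.1 := by
        rw [Equiv.Perm.sign_mul, Equiv.Perm.sign_inv]
      rw [h5]
      push_cast
      ring
    have h6 : ∑ g ∈ γ.support with f g = e,
        ((γ g : ℂ) * psi (-∑ i, ∑ j, a i j * z g i j)) • E (Diag d c) a (w g S) =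
        (∑ g ∈ γ.support with f g = e,
          (((γ g * ((Equiv.Perm.sign g.1 : ℤˣ) : ℤ) ^ n : ℚ)) : ℂ) *
          psi (((-t ⟨0, hk⟩ : (ZMod d)ˣ) : ZMod d) *
            ∑ i, ∑ j, (b i j : ZMod d) * z g i j)) •
          ((((Equiv.Perm.sign g₀.1 : ℤˣ) : ℤ) : ℂ) ^ n • E (Diag d c) a (w g₀ S)) := by
      rw [Finset.sum_smul]
      apply Finset.sum_congr rfl
      intro g hg
      rw [hsign g (Finset.mem_filter.1 hg).2, smul_smul, smul_smul]
      congr 1
      have h7 : -∑ i, ∑ j, a i j * z g i j =
          ((-t ⟨0, hk⟩ : (ZMod d)ˣ) : ZMod d) * ∑ i, ∑ j, (b i j : ZMod d) * z g i j := by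
        rw [Units.val_neg, neg_mul, Finset.mul_sum]
        congr 1
        apply Finset.sum_congr rfl
        intro i _
        rw [Finset.mul_sum]
        apply Finset.sum_congr rfl
        intro j _
        rw [hab, htt i ⟨0, hk⟩]
        ring
      rw [h7]
      push_cast
      ring
    rw [h6]
    have h8 := coeff_forms γ hγ z hz b e hb0 hbs hk
    have h9 : ∀ g : Sym d k N, (f g = e) ↔ (∀ i j, b (g.1.symm i) j = e i j) := by
      intro g
      constructor
      · intro h i j
        exact congrFun (congrFun h i) j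
      · intro h
        funext i j
        exact h i j
    simp only [h9]
    have h10 := psi_conj (γ.support.filter
      (fun g => ∀ i j, b (g.1.symm i) j = e i j))
      (fun g => γ g * ((Equiv.Perm.sign g.1 : ℤˣ) : ℤ) ^ n)
      (fun g => ∑ i, ∑ j, (b i j : ZMod d) * z g i j) (-t ⟨0, hk⟩) h8
    rw [h10, zero_smul]
  rw [key, smul_zero]

theorem main [NeZero d] {k n r : ℕ} (hd : 1 < d) (hr : 1 ≤ r)
    (hN : (r - 1) * d + d / 2 + 2 ≤ N ∨ N = r * d) {c : Fin r → Fin N → ℂ}
    (hsw : HasSwap (d := d) n r c) (hk : 0 < k) (γ : Sym d k N →₀ ℚ)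
    (hγ : KillsForms n r γ) (x y : Pts k N) (hx : OnX (Diag d c) x)
    (hy : OnX (Diag d c) y) :
    push γ (cyc Finset.univ x y) ∈ ratEq ℚ (Diag d c) k := by
  apply ratEq_descent
  rw [← Submodule.Quotient.mk_eq_zero, push_class]
  exact main_aux hd hr hN hsw hk γ hγ x y hx hy

end Pool.Agent.GBB
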