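import Pool.Agent.GBB.Basic
import Pool.Agent.ZCyc.Basic

/-!
# GBB: the class as a function of two factors
-/

set_option autoImplicit false

noncomputable section

namespace Pool.Agent.GBB

open Pool.Agent.ZCyc Pool.Agent.DCI57
open Pool.Agent.VCI (op2 ratEquiv2)
open scoped LinearAlgebra.Projectivization

variable {d m m' N : ℕ}

private theorem sl2_sum {A M : Type*} [Fintype A] [AddCommMonoid M] (i : Fin m)
    (f : (Fin m → A) → M) :
    ∑ g : Fin m → A, ∑ h : A, f (Function.update g i h) = Fintype.card A • ∑ g, f g := by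
  let e : (Fin m → A) × A ≃ (Fin m → A) × A :=
    { toFun := fun x => (Function.update x.1 i x.2, x.1 i)
      invFun := fun x => (Function.update x.1 i x.2, x.1 i)
      left_inv := fun x => by simp
      right_inv := fun x => by simp }
  have h1 : ∑ g : Fin m → A, ∑ h : A, f (Function.update g i h) =
      ∑ x : (Fin m → A) × A, f (e x).1 := by
    rw [Fintype.sum_prod_type]
    rfl
  rw [h1, Equiv.sum_comp e (fun x => f x.1), Fintype.sum_prod_type]
  simp only [Finset.sum_const, Finset.card_univ, Finset.smul_sum]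

/-- put `z` at the factors `i₁`, `i₂` -/
private def sl2_pt (p : Pts m N) (i₁ i₂ : Fin m)
    (z : ℙ ℂ (Fin N → ℂ) × ℙ ℂ (Fin N → ℂ)) : Pts m N :=
  Function.update (Function.update p i₁ z.1) i₂ z.2

private theorem sl2_const {F : Type} [Field F] [Algebra ℂ F] (v : Place ℂ F)
    (q : ℙ ℂ (Fin N → ℂ)) : IsValue v (fun j => algebraMap ℂ F (q.rep j)) q := by
  refine ⟨1, fun j => ?_⟩
  rw [one_mul, sub_self]
  exact v.vanishes_zero

private theorem sl2_ratEq {X : Set (ℙ ℂ (Fin N → ℂ))} (p : Pts m N) (hp : OnX X p)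
    (i₁ i₂ : Fin m) {z : ℙ ℂ (Fin N → ℂ) × ℙ ℂ (Fin N → ℂ) →₀ ℂ}
    (hz : z ∈ ratEquiv2 ℂ X) :
    Finsupp.lmapDomain ℂ ℂ (sl2_pt p i₁ i₂) z ∈ ratEq ℂ X m := by
  have hle : ratEquiv2 ℂ X ≤
      (ratEq ℂ X m).comap (Finsupp.lmapDomain ℂ ℂ (sl2_pt p i₁ i₂)) := by
    conv_lhs => rw [ratEquiv2]
    rw [Submodule.span_le]
    rintro _ ⟨F, j1, j2, j3, j4, j5, j6, x, y, φ, ψ, h1, h2, h3, h4, a, b, v, w, hv, hw, rfl⟩
    rw [SetLike.mem_coe, Submodule.mem_comap, map_sum]
    refine Submodule.subset_span ⟨F, j1, j2, j3, j4, j5, j6,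
      fun i => if i = i₂ then y else if i = i₁ then x else
        fun j => algebraMap ℂ F ((p i).rep j),
      fun v => sl2_pt p i₁ i₂ (φ v, ψ v), ?_, ?_, a, b, v, w, hv, hw, ?_⟩
    · intro v i
      by_cases hi2 : i = i₂
      · subst hi2
        simp only [if_true, sl2_pt, Function.update_self]
        exact h2 v
      · by_cases hi1 : i = i₁
        · subst hi1
          simp only [if_neg hi2, if_true, sl2_pt, Function.update_of_ne hi2,
            Function.update_self]
          exact h1 v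
        · simp only [if_neg hi2, if_neg hi1, sl2_pt, Function.update_of_ne hi2,
            Function.update_of_ne hi1]
          exact sl2_const v (p i)
    · intro v i
      by_cases hi2 : i = i₂
      · subst hi2
        simp only [sl2_pt, Function.update_self]
        exact h4 v
      · by_cases hi1 : i = i₁
        · subst hi1
          simp only [sl2_pt, Function.update_of_ne hi2, Function.update_self]
          exact h3 v
        · simp only [sl2_pt, Function.update_of_ne hi2, Function.update_of_ne hi1]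
          exact hp i
    · refine Finset.sum_congr rfl fun τ _ => ?_
      rw [map_sub, Finsupp.lmapDomain_apply, Finsupp.lmapDomain_apply,
        Finsupp.mapDomain_single, Finsupp.mapDomain_single]
  exact hle hz

/-- the sum over the other factors -/
private def sl2_L [NeZero d] (X : Set (ℙ ℂ (Fin N → ℂ))) (a : Fin m → Fin N → ZMod d)
    (p : Pts m N) (i₁ i₂ : Fin m) :
    (ℙ ℂ (Fin N → ℂ) × ℙ ℂ (Fin N → ℂ) →₀ ℂ) →ₗ[ℂ] V X m :=
  ∑ g : Fin m → Fin N → ZMod d,
    psi (∑ i, if i = i₁ ∨ i = i₂ then 0 else ∑ j, a i j * g i j) •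
      ((ratEq ℂ X m).mkQ.comp (Finsupp.lmapDomain ℂ ℂ (sl2_pt (actM g p) i₁ i₂)))

private theorem sl2_L_zero [NeZero d] {X : Set (ℙ ℂ (Fin N → ℂ))} (hX : Stab d X)
    (a : Fin m → Fin N → ZMod d) (p : Pts m N) (hp : OnX X p) (i₁ i₂ : Fin m)
    {z : ℙ ℂ (Fin N → ℂ) × ℙ ℂ (Fin N → ℂ) →₀ ℂ} (hz : z ∈ ratEquiv2 ℂ X) :
    sl2_L X a p i₁ i₂ z = 0 := by
  unfold sl2_L
  rw [LinearMap.sum_apply]
  refine Finset.sum_eq_zero fun g _ => ?_
  rw [LinearMap.smul_apply, LinearMap.comp_apply, Submodule.mkQ_apply]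
  have h1 : Finsupp.lmapDomain ℂ ℂ (sl2_pt (actM g p) i₁ i₂) z ∈ ratEq ℂ X m :=
    sl2_ratEq (actM g p) (fun i => stab_act hX (g i) (hp i)) i₁ i₂ hz
  rw [(Submodule.Quotient.mk_eq_zero _).2 h1, smul_zero]

private theorem sl2_split {A : Type*} [AddCommMonoid A] (i₁ i₂ : Fin m) (hi : i₁ ≠ i₂)
    (G : Fin m → A) :
    ∑ i, G i = (∑ i, if i = i₁ ∨ i = i₂ then 0 else G i) + (G i₁ + G i₂) := by
  have h1 : ∀ i, G i = (if i = i₁ ∨ i = i₂ then 0 else G i) +
      ((if i = i₁ then G i else 0) + (if i = i₂ then G i else 0)) := by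
    intro i
    by_cases h1 : i = i₁
    · have h2 : i ≠ i₂ := by
        rw [h1]
        exact hi
      rw [if_pos (Or.inl h1), if_pos h1, if_neg h2, zero_add, add_zero]
    · by_cases h2 : i = i₂
      · rw [if_pos (Or.inr h2), if_neg h1, if_pos h2, zero_add, zero_add]
      · rw [if_neg (by tauto), if_neg h1, if_neg h2, add_zero, add_zero]
  conv_lhs => rw [Finset.sum_congr rfl fun i _ => h1 i]
  rw [Finset.sum_add_distrib, Finset.sum_add_distrib]
  congr 1
  rw [Finset.sum_ite_eq' Finset.univ i₁ G, Finset.sum_ite_eq' Finset.univ i₂ G,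
    if_pos (Finset.mem_univ _), if_pos (Finset.mem_univ _)]

private theorem sl2_L_op [NeZero d] (X : Set (ℙ ℂ (Fin N → ℂ)))
    (a : Fin m → Fin N → ZMod d) (p : Pts m N) (i₁ i₂ : Fin m) (hi : i₁ ≠ i₂)
    (u v : ℙ ℂ (Fin N → ℂ)) :
    sl2_L X a p i₁ i₂ (op2 (zeta d) (chi (a i₁)) (chi (a i₂)) (Finsupp.single (u, v) 1)) =
      Fintype.card (Fin N → ZMod d) • Fintype.card (Fin N → ZMod d) •
        E X a (sl2_pt p i₁ i₂ (u, v)) := by
  set F : (Fin m → Fin N → ZMod d) → V X m := fun g =>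
    psi (∑ i, ∑ j, a i j * g i j) • cl X (actM g (sl2_pt p i₁ i₂ (u, v))) with hF
  have hE : E X a (sl2_pt p i₁ i₂ (u, v)) = ∑ g, F g := rfl
  rw [hE, ← sl2_sum i₂ F, ← sl2_sum i₁ fun g => ∑ h, F (Function.update g i₂ h)]
  have hop : op2 (zeta d) (chi (a i₁)) (chi (a i₂)) (Finsupp.single (u, v) 1) =
      ∑ g : Fin N → ZMod d, ∑ h : Fin N → ZMod d,
        Finsupp.single (act (zeta d) g u, act (zeta d) h v) (chi (a i₁) g * chi (a i₂) h) := by
    rw [op2, Finsupp.linearCombination_single, one_smul]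
  rw [hop]
  unfold sl2_L
  rw [LinearMap.sum_apply]
  refine Finset.sum_congr rfl fun g _ => ?_
  rw [map_sum]
  refine Finset.sum_congr rfl fun g' _ => ?_
  rw [map_sum]
  refine Finset.sum_congr rfl fun h' _ => ?_
  rw [LinearMap.smul_apply, LinearMap.comp_apply, Finsupp.lmapDomain_apply,
    Finsupp.mapDomain_single]
  have h1 : Finsupp.single (sl2_pt (actM g p) i₁ i₂ (act (zeta d) g' u, act (zeta d) h' v))
      (chi (a i₁) g' * chi (a i₂) h') = (chi (a i₁) g' * chi (a i₂) h') •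
        Finsupp.single (sl2_pt (actM g p) i₁ i₂ (act (zeta d) g' u, act (zeta d) h' v))
          (1 : ℂ) := by
    rw [Finsupp.smul_single, smul_eq_mul, mul_one]
  rw [h1, map_smul, smul_smul]
  have h2 : actM (Function.update (Function.update g i₁ g') i₂ h')
      (sl2_pt p i₁ i₂ (u, v)) =
      sl2_pt (actM g p) i₁ i₂ (act (zeta d) g' u, act (zeta d) h' v) := by
    funext i
    by_cases hi2 : i = i₂
    · subst hi2
      simp only [actM, sl2_pt, Function.update_self]
    · by_cases hi1 : i = i₁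
      · subst hi1
        simp only [actM, sl2_pt, Function.update_of_ne hi2, Function.update_self]
      · simp only [actM, sl2_pt, Function.update_of_ne hi2, Function.update_of_ne hi1]
  have h3 : ∑ i, ∑ j, a i j * Function.update (Function.update g i₁ g') i₂ h' i j =
      (∑ i, if i = i₁ ∨ i = i₂ then 0 else ∑ j, a i j * g i j) +
        (∑ j, a i₁ j * g' j + ∑ j, a i₂ j * h' j) := by
    rw [sl2_split i₁ i₂ hi fun i =>
      ∑ j, a i j * Function.update (Function.update g i₁ g') i₂ h' i j]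
    congr 1
    · refine Finset.sum_congr rfl fun i _ => ?_
      by_cases h : i = i₁ ∨ i = i₂
      · rw [if_pos h, if_pos h]
      · rw [if_neg h, if_neg h]
        push Not at h
        rw [Function.update_of_ne h.2, Function.update_of_ne h.1]
    · rw [Function.update_self, Function.update_of_ne hi, Function.update_self]
  have h4 : F (Function.update (Function.update g i₁ g') i₂ h') =
      psi (∑ i, ∑ j, a i j * Function.update (Function.update g i₁ g') i₂ h' i j) •
        cl X (actM (Function.update (Function.update g i₁ g') i₂ h')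
          (sl2_pt p i₁ i₂ (u, v))) := rfl
  rw [h4, h3, h2, psi_add, psi_add]
  rfl

private theorem sl2_cancel [NeZero d] {X : Set (ℙ ℂ (Fin N → ℂ))} {x : V X m}
    (h : Fintype.card (Fin N → ZMod d) • Fintype.card (Fin N → ZMod d) • x = 0) : x = 0 := by
  have hc : ((Fintype.card (Fin N → ZMod d) : ℕ) : ℂ) ≠ 0 :=
    Nat.cast_ne_zero.2 Fintype.card_ne_zero
  rw [← Nat.cast_smul_eq_nsmul ℂ, ← Nat.cast_smul_eq_nsmul ℂ] at h
  exact (smul_eq_zero.1 ((smul_eq_zero.1 h).resolve_left hc)).resolve_left hc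

theorem E_zero_of_op2 [NeZero d] {X : Set (ℙ ℂ (Fin N → ℂ))} (hX : Stab d X)
    (a : Fin m → Fin N → ZMod d) (p : Pts m N) (hp : OnX X p) (i₁ i₂ : Fin m) (hi : i₁ ≠ i₂)
    (h : op2 (zeta d) (chi (a i₁)) (chi (a i₂)) (Finsupp.single (p i₁, p i₂) 1) ∈
      ratEquiv2 ℂ X) : E X a p = 0 := by
  have h1 := sl2_L_op X a p i₁ i₂ hi (p i₁) (p i₂)
  rw [sl2_L_zero hX a p hp i₁ i₂ h] at h1
  have h2 : sl2_pt p i₁ i₂ (p i₁, p i₂) = p := by
    simp only [sl2_pt, Function.update_eq_self]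
  rw [h2] at h1
  exact sl2_cancel h1.symm

theorem E_swap_of_op2 [NeZero d] {X : Set (ℙ ℂ (Fin N → ℂ))} (hX : Stab d X)
    (a : Fin m → Fin N → ZMod d) (p : Pts m N) (hp : OnX X p) (i₁ i₂ : Fin m) (hi : i₁ ≠ i₂)
    (haa : a i₁ = a i₂) (n : ℕ)
    (h : op2 (zeta d) (chi (a i₁)) (chi (a i₁)) (Finsupp.single (p i₁, p i₂) 1) -
      (-1 : ℂ) ^ n • op2 (zeta d) (chi (a i₁)) (chi (a i₁)) (Finsupp.single (p i₂, p i₁) 1) ∈
      ratEquiv2 ℂ X) : E X a (p ∘ Equiv.swap i₁ i₂) = (-1 : ℂ) ^ n • E X a p := by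
  have h1 := sl2_L_op X a p i₁ i₂ hi (p i₁) (p i₂)
  have h1' := sl2_L_op X a p i₁ i₂ hi (p i₂) (p i₁)
  rw [← haa] at h1 h1'
  have h2 : sl2_pt p i₁ i₂ (p i₁, p i₂) = p := by
    simp only [sl2_pt, Function.update_eq_self]
  have h2' : sl2_pt p i₁ i₂ (p i₂, p i₁) = p ∘ Equiv.swap i₁ i₂ := by
    funext i
    by_cases hi2 : i = i₂
    · subst hi2
      simp only [sl2_pt, Function.update_self, Function.comp_apply, Equiv.swap_apply_right]
    · by_cases hi1 : i = i₁
      · subst hi1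
        simp only [sl2_pt, Function.update_of_ne hi2, Function.update_self,
          Function.comp_apply, Equiv.swap_apply_left]
      · simp only [sl2_pt, Function.update_of_ne hi2, Function.update_of_ne hi1,
          Function.comp_apply, Equiv.swap_apply_of_ne_of_ne hi1 hi2]
  rw [h2] at h1
  rw [h2'] at h1'
  have h3 := sl2_L_zero hX a p hp i₁ i₂ h
  rw [map_sub, map_smul, h1, h1'] at h3
  have h4 : Fintype.card (Fin N → ZMod d) • Fintype.card (Fin N → ZMod d) •
      (E X a p - (-1 : ℂ) ^ n • E X a (p ∘ Equiv.swap i₁ i₂)) = 0 := by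
    rw [smul_sub, smul_sub, ← h3]
    congr 1
    rw [smul_comm _ ((-1 : ℂ) ^ n), smul_comm _ ((-1 : ℂ) ^ n)]
  have h5 := sub_eq_zero.1 (sl2_cancel h4)
  rw [h5, smul_smul, ← mul_pow]
  norm_num

end Pool.Agent.GBB
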